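import Pool.Agent.MP_3ee8cb_gt.DNC0.Spec
import Pool.Agent.MP_3ee8cb_gt.DN.Top
import Pool.Agent.MP_3ee8cb_gt.DNFL.F3
import Pool.Agent.MP_3ee8cb_gt.DNFL.RCN
import Pool.Agent.MP_3ee8cb_gt.DNFL.RCV
import Pool.Agent.MP_3ee8cb_gt.DNFL.RGL
import Pool.Agent.MP_3ee8cb_gt.DNFL.RFC
import Pool.Agent.MP_3ee8cb_gt.TB.RODE

/-! The bridge between metrics and frames. -/

namespace Pool.Agent.MP_3ee8cb_gt.DNC0

open DN (Dim dm)

variable [Dim]

open Set Filter Topology Real DN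
open CR (Met UT Riem RP dd ng tm MinP bus)
open scoped RealInnerProductSpace ContDiff

theorem frm3 : SFRM3 := by
  intro h C Λ _ _ Ψ q c s
  obtain ⟨m, o, l, k⟩ := DNFL.frm3_of TB.ode DNFL.cn DNFL.cv DNFL.gl DNFL.fc h C Λ Ψ q c
    (contDiff_infty.1 s 3)
  exact ⟨m, o, l, k.com⟩

theorem br_unit {g : Met dm} {C : TB.Chr dm} {Φ : ℝ → UT g → UT g} {m : MF} (o : m.OK)
    (l : Lk g C Φ m) (z : W) (hz : ‖z.2‖ = 1) : ∃ p : UT g, fz m p = z ∧ p.1.1 = z.1 :=
  ⟨⟨(z.1, m.R z.1 z.2), by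
    change g z.1 (m.R z.1 z.2) (m.R z.1 z.2) = 1
    rw [l.orth, real_inner_self_eq_norm_sq, hz, one_pow]⟩, Prod.ext rfl (o.SR _ _), rfl⟩

theorem br_ft {g : Met dm} {C : TB.Chr dm} {Φ : ℝ → UT g → UT g} {m : MF} (l : Lk g C Φ m) (t : ℝ)
    (p : UT g) : (m.Z t (fz m p)).1 = (Φ t p).1.1 := by
  rw [fz, l.flow]

theorem br : SBR := by
  intro tay g C Γ _ _ Φ q _ m lg O a b sm o j l co hd dl act ha hb pin th
  have ab : a ≤ max |b| a := le_max_right _ _
  have cs : ∀ u v : V, 0 ≤ ‖u‖ ^ 2 * ‖v‖ ^ 2 - ⟪u, v⟫ ^ 2 := fun u v => by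
    have := real_inner_mul_inner_self_le u v
    rw [real_inner_self_eq_norm_sq, real_inner_self_eq_norm_sq] at this
    nlinarith
  refine ⟨o, j, hd, act, ha, ab, max_lt ?_ (by linarith), fun y u v => ?_, fun y u v => ?_,
    fun y u u' hu hu' R T h0 hT => ?_, fun R => ?_, ?_, fun γ => ?_⟩
  · exact abs_lt_of_sq_lt_sq (by linarith) (by linarith)
  · have := (pin y (m.R y u) (m.R y v)).2
    rw [(l.sec o y u v).1]
    rw [(l.sec o y u v).2] at this
    nlinarith [mul_nonneg (sq_nonneg a) (cs u v)]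
  · have := (pin y (m.R y u) (m.R y v)).1
    rw [(l.sec o y u v).1]
    rw [(l.sec o y u v).2] at this
    have h1 : b ^ 2 ≤ max |b| a ^ 2 := by
      rw [← sq_abs b]
      exact pow_le_pow_left₀ (abs_nonneg b) (le_max_left _ _) 2
    nlinarith [mul_le_mul_of_nonneg_right h1 (cs u v)]
  · obtain ⟨p, hp, e⟩ := br_unit o l (y, u) hu
    obtain ⟨p', hp', e'⟩ := br_unit o l (y, u') hu'
    have k : ∀ t, df m lg (y, u) (y, u') t = dd g (Φ t p).1.1 (Φ t p').1.1 := fun t => by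
      rw [← hp, ← hp', df, dl, br_ft l, br_ft l]
    rw [k, k]
    exact th p p' (e.trans e'.symm) R T h0 hT
  · have := q.rp.deck.disc
    refine (ProperlyDiscontinuousSMul.finite_disjoint_inter_image (Γ := Γ)
      (isCompact_closedBall (0 : V) R) (isCompact_closedBall (0 : V) R)).subset ?_
    rintro γ ⟨x, h1, h2⟩
    exact ⟨γ • x, ⟨x, mem_closedBall_zero_iff.2 h1, rfl⟩, mem_closedBall_zero_iff.2 h2⟩
  · have a1 : ContDiff ℝ 2 fun z : V × V => m.R z.1 z.2 :=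
      (o.cR.comp contDiff_fst).clm_apply contDiff_snd
    exact tay m.vf m.Z (a1.prodMk (((co.comp contDiff_fst).clm_apply a1).clm_apply
      contDiff_snd).neg) o.cZ o.zero o.ode
  · exact DNFL.act3 o act γ (contDiff_infty.1 (sm γ) 3)

theorem ln : SLN := by
  intro g C Γ _ _ Φ _ _ m lg β D o l dl bp bu
  have un : ∀ p : UT g, ‖(fz m p).2‖ = 1 := fun p => by
    have := l.orth p.1.1 (m.S p.1.1 p.1.2) (m.S p.1.1 p.1.2)
    rw [o.RS, p.2, real_inner_self_eq_norm_sq] at this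
    exact (pow_eq_one_iff_of_nonneg (norm_nonneg _) two_ne_zero).1 this.symm
  have c1 : Continuous fun p : UT g => p.1.1 := continuous_fst.comp continuous_subtype_val
  refine ⟨c1.prodMk ((o.cS.continuous.comp c1).clm_apply
    (continuous_snd.comp continuous_subtype_val)), un, fun z hz =>
      (br_unit o l z hz).imp fun _ h => h.1, fun p => ?_, l.flow, dl, fun p y => ?_⟩
  · exact Prod.ext rfl (map_neg (m.S p.1.1) p.1.2)
  · have h0 : (fz m p).2 ≠ 0 := fun e => by simpa [e] using un p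
    have h1 := (bp.lim p y).comp tendsto_natCast_atTop_atTop
    refine tendsto_nhds_unique h1 ((bu.lim _ y h0).congr fun T => ?_)
    have e : nz (fz m p) = fz m p := by rw [nz, un, inv_one, one_smul]
    rw [bt, e, dl, br_ft l]
    rfl

end Pool.Agent.MP_3ee8cb_gt.DNC0
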