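import Pool.Agent.MP_3ee8cb_gt.DN.Defs

/-! Quadratic Taylor bounds for maps of class `C²` and for flows of fields of class `C²`. -/

namespace Pool.Agent.MP_3ee8cb_gt.DNC0.H38

open DN (Dim dm)

variable [Dim]

open Set Filter Topology Metric

variable {W W' : Type} [NormedAddCommGroup W] [NormedSpace ℝ W] [FiniteDimensional ℝ W]
  [NormedAddCommGroup W'] [NormedSpace ℝ W']

theorem lip_ball {f : W → W'} (hf : ContDiff ℝ 1 f) (R : ℝ) :
    ∃ C, 0 ≤ C ∧ ∀ p q : W, ‖p‖ ≤ R → ‖q‖ ≤ R → ‖f q - f p‖ ≤ C * ‖q - p‖ := by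
  have := FiniteDimensional.proper_real W
  obtain ⟨K, hK⟩ := (hf.locallyLipschitz.locallyLipschitzOn
    (s := closedBall (0 : W) R)).exists_lipschitzOnWith_of_compact (isCompact_closedBall _ _)
  refine ⟨K, K.2, fun p q hp hq => ?_⟩
  have := hK.dist_le_mul q (by simpa using hq) p (by simpa using hp)
  simpa only [dist_eq_norm] using this

theorem bdd_ball {f : W → W'} (hf : Continuous f) (R : ℝ) :
    ∃ C, 0 ≤ C ∧ ∀ p : W, ‖p‖ ≤ R → ‖f p‖ ≤ C := by
  have := FiniteDimensional.proper_real W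
  obtain ⟨C, hC⟩ := (isCompact_closedBall (0 : W) R).exists_bound_of_continuousOn hf.continuousOn
  exact ⟨max C 0, le_max_right _ _, fun p hp => (hC p (by simpa using hp)).trans (le_max_left _ _)⟩

theorem tay_ball {f : W → W'} (hf : ContDiff ℝ 2 f) (R : ℝ) :
    ∃ C, 0 ≤ C ∧ ∀ p q : W, ‖p‖ ≤ R → ‖q‖ ≤ R →
      ‖f q - f p - fderiv ℝ f p (q - p)‖ ≤ C * ‖q - p‖ ^ 2 := by
  have h1 : ContDiff ℝ 1 (fderiv ℝ f) := hf.fderiv_right (by norm_num)
  obtain ⟨C, C0, hC⟩ := lip_ball h1 R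
  refine ⟨C, C0, fun p q hp hq => ?_⟩
  have hs : Convex ℝ (closedBall (0 : W) R ∩ closedBall p ‖q - p‖) :=
    (convex_closedBall _ _).inter (convex_closedBall _ _)
  have := hs.norm_image_sub_le_of_norm_fderiv_le' (𝕜 := ℝ) (f := f) (φ := fderiv ℝ f p)
    (C := C * ‖q - p‖) (x := p) (y := q)
    (fun x _ => (hf.differentiable (by norm_num)) x)
    (fun x hx => (hC p x hp (by simpa using hx.1)).trans
      (mul_le_mul_of_nonneg_left (by simpa [dist_eq_norm] using hx.2) C0))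
    ⟨by simpa using hp, by simp⟩ ⟨by simpa using hq, by simp [dist_eq_norm]⟩
  calc _ ≤ C * ‖q - p‖ * ‖q - p‖ := this
    _ = _ := by ring

theorem flow_ball {Z : ℝ → W → W} (hZ : ContDiff ℝ 1 fun q : ℝ × W => Z q.1 q.2) (R : ℝ) :
    ∃ C, 0 ≤ C ∧ ∀ t ∈ Icc (0 : ℝ) 1, ∀ p : W, ‖p‖ ≤ R → ‖Z t p‖ ≤ C ∧
      ∀ q : W, ‖q‖ ≤ R → ‖Z t q - Z t p‖ ≤ C * ‖q - p‖ := by
  obtain ⟨A, A0, hA⟩ := lip_ball hZ (max R 1)
  obtain ⟨B, B0, hB⟩ := bdd_ball hZ.continuous (max R 1)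
  have hn : ∀ t ∈ Icc (0 : ℝ) 1, ∀ p : W, ‖p‖ ≤ R → ‖(t, p)‖ ≤ max R 1 := fun t ht p hp => by
    rw [Prod.norm_def]
    refine max_le (le_max_of_le_right ?_) (le_max_of_le_left hp)
    rw [Real.norm_eq_abs, abs_of_nonneg ht.1]
    exact ht.2
  refine ⟨max A B, le_max_of_le_left A0, fun t ht p hp =>
    ⟨(hB _ (hn t ht p hp)).trans (le_max_right _ _), fun q hq => ?_⟩⟩
  have := hA _ _ (hn t ht p hp) (hn t ht q hq)
  simp only [Prod.mk_sub_mk, sub_self, Prod.norm_def, norm_zero] at this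
  rw [max_eq_right (norm_nonneg _)] at this
  exact this.trans (mul_le_mul_of_nonneg_right (le_max_left _ _) (norm_nonneg _))

/-- The time one map of the flow of a field of class `C²` has a quadratic Taylor bound. -/
theorem tay_flow {F : W → W} {Z : ℝ → W → W} (hF : ContDiff ℝ 2 F)
    (hZ : ContDiff ℝ 1 fun q : ℝ × W => Z q.1 q.2) (h0 : ∀ z, Z 0 z = z)
    (ode : ∀ z t, HasDerivAt (fun s => Z s z) (F (Z t z)) t) (R : ℝ) :
    ∃ C, 0 ≤ C ∧ ∀ p q : W, ‖p‖ ≤ R → ‖q‖ ≤ R →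
      ‖Z 1 q - Z 1 p - fderiv ℝ (Z 1) p (q - p)‖ ≤ C * ‖q - p‖ ^ 2 := by
  obtain ⟨A, A0, hA⟩ := flow_ball hZ R
  obtain ⟨B, B0, hB⟩ := tay_ball hF A
  obtain ⟨D, D0, hD⟩ := bdd_ball (hF.continuous_fderiv (by norm_num)) A
  set K := D + 1 with hK
  have K0 : K ≠ 0 := by positivity
  set C := 2 * B * A ^ 2 / K * (Real.exp K - 1) with hC
  have e1 : 0 ≤ Real.exp K - 1 := by
    have := Real.add_one_le_exp K
    linarith
  refine ⟨C, by positivity, fun p q hp hq => ?_⟩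
  set h := q - p with hh
  have key : ∀ s ∈ Ioc (0 : ℝ) 1,
      ‖Z 1 (p + s • h) - Z 1 p - s • (Z 1 q - Z 1 p)‖ ≤ s * (C * ‖h‖ ^ 2) := by
    intro s hs
    have hm : ‖p + s • h‖ ≤ R := by
      have : p + s • h = (1 - s) • p + s • q := by rw [hh]; module
      rw [this]
      have := (convex_closedBall (0 : W) R) (x := p) (by simpa using hp) (y := q)
        (by simpa using hq) (a := 1 - s) (b := s) (by linarith [hs.2]) hs.1.le (by ring)
      simpa using this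
    have hd : ∀ t, HasDerivAt (fun t => Z t (p + s • h) - Z t p - s • (Z t q - Z t p))
        (F (Z t (p + s • h)) - F (Z t p) - s • (F (Z t q) - F (Z t p))) t := fun t =>
      ((ode _ t).sub (ode _ t)).sub (((ode _ t).sub (ode _ t)).const_smul s)
    have := norm_le_gronwallBound_of_norm_deriv_right_le (a := 0) (b := 1) (δ := 0) (K := K)
      (ε := s * (2 * B * A ^ 2 * ‖h‖ ^ 2))
      (fun t _ => (hd t).continuousAt.continuousWithinAt)
      (fun t _ => (hd t).hasDerivWithinAt) (by simp [h0, hh]) (fun t ht => ?_) 1 (by simp)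
    · rw [gronwallBound_of_K_ne_0 K0] at this
      refine this.trans (le_of_eq ?_)
      simp only [sub_zero, mul_one, zero_mul, zero_add, hC]
      field_simp
    · have ht' : t ∈ Icc (0 : ℝ) 1 := ⟨ht.1, ht.2.le⟩
      obtain ⟨a1, a2⟩ := hA t ht' p hp
      have b1 := hB _ _ a1 (hA t ht' _ hm).1
      have b2 := hB _ _ a1 (hA t ht' _ hq).1
      have c1 := a2 _ hm
      have c2 := a2 _ hq
      rw [add_sub_cancel_left, norm_smul, Real.norm_eq_abs, abs_of_pos hs.1] at c1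
      rw [← hh] at c2
      set x := Z t (p + s • h)
      set y := Z t p
      set z := Z t q
      have e : F x - F y - s • (F z - F y) = fderiv ℝ F y (x - y - s • (z - y)) +
          ((F x - F y - fderiv ℝ F y (x - y)) - s • (F z - F y - fderiv ℝ F y (z - y))) := by
        simp only [map_sub, map_smul]
        module
      rw [e]
      refine (norm_add_le _ _).trans (add_le_add ?_ ((norm_sub_le _ _).trans ?_))
      · refine (ContinuousLinearMap.le_opNorm _ _).trans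
          (mul_le_mul_of_nonneg_right ?_ (norm_nonneg _))
        linarith [hD y a1]
      · rw [norm_smul, Real.norm_eq_abs, abs_of_pos hs.1]
        have d1 : ‖x - y‖ ^ 2 ≤ s * (A ^ 2 * ‖h‖ ^ 2) := by
          have : ‖x - y‖ ^ 2 ≤ (A * (s * ‖h‖)) ^ 2 := by gcongr
          have s2 : s ^ 2 ≤ s := by nlinarith [hs.1, hs.2]
          calc _ ≤ s ^ 2 * (A ^ 2 * ‖h‖ ^ 2) := this.trans (le_of_eq (by ring))
            _ ≤ _ := by gcongr
        have d2 : ‖z - y‖ ^ 2 ≤ A ^ 2 * ‖h‖ ^ 2 := by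
          have : ‖z - y‖ ^ 2 ≤ (A * ‖h‖) ^ 2 := by gcongr
          exact this.trans (le_of_eq (by ring))
        have f1 := b1.trans (mul_le_mul_of_nonneg_left d1 B0)
        have f2 := mul_le_mul_of_nonneg_left (b2.trans (mul_le_mul_of_nonneg_left d2 B0)) hs.1.le
        calc _ ≤ B * (s * (A ^ 2 * ‖h‖ ^ 2)) + s * (B * (A ^ 2 * ‖h‖ ^ 2)) := add_le_add f1 f2
          _ = _ := by ring
  have hZ1 : DifferentiableAt ℝ (Z 1) p :=
    ((hZ.comp (contDiff_const.prodMk contDiff_id)).differentiable (by norm_num)) p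
  have hl : HasDerivAt (fun s : ℝ => p + s • h) h 0 := by
    simpa using ((hasDerivAt_id (0 : ℝ)).smul_const h).const_add p
  have hc : HasDerivAt (fun s : ℝ => Z 1 (p + s • h)) (fderiv ℝ (Z 1) p h) 0 := by
    have : HasFDerivAt (Z 1) (fderiv ℝ (Z 1) p) (p + (0 : ℝ) • h) := by
      simpa using hZ1.hasFDerivAt
    exact this.comp_hasDerivAt (0 : ℝ) hl
  have ht := (hc.tendsto_slope_zero_right.const_sub (Z 1 q - Z 1 p)).norm
  refine le_of_tendsto ht ?_
  filter_upwards [Ioc_mem_nhdsGT (zero_lt_one' ℝ)] with s hs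
  have k := key s hs
  have e : Z 1 q - Z 1 p - s⁻¹ • (Z 1 (p + (0 + s) • h) - Z 1 (p + (0 : ℝ) • h)) =
      -(s⁻¹ • (Z 1 (p + s • h) - Z 1 p - s • (Z 1 q - Z 1 p))) := by
    rw [zero_add, zero_smul, add_zero, smul_sub s⁻¹ _ (s • _), smul_smul,
      inv_mul_cancel₀ hs.1.ne', one_smul, neg_sub]
  rw [e, norm_neg, norm_smul, norm_inv, Real.norm_eq_abs, abs_of_pos hs.1,
    inv_mul_le_iff₀ hs.1]
  exact k

end Pool.Agent.MP_3ee8cb_gt.DNC0.H38
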