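import Pool.Agent.MP_3ee8cb_gt.DNC0.Spec
import Pool.Agent.MP_3ee8cb_gt.DNC0.H38Tay

/-! Basic facts on the distance in a moving frame. -/

namespace Pool.Agent.MP_3ee8cb_gt.DNC0

open DN (Dim dm)

variable [Dim]

open Set Filter Topology Asymptotics Real DN
open scoped RealInnerProductSpace

namespace RBs

variable {m : MF} {lg : W → V}

theorem c1 (ok : m.OK) (t : ℝ) : ContDiff ℝ 1 (m.Z t) :=
  ok.cZ.comp (contDiff_const.prodMk contDiff_id)

theorem ray (jac : m.Jac) (x b : V) (s : ℝ) : (m.Z 1 (x, s • b)).1 = (m.Z s (x, b)).1 := by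
  rw [jac.scale, mul_one]

theorem at0 (ok : m.OK) (jac : m.Jac) (x : V) : (m.Z 1 (x, 0)).1 = x := by
  have := ray jac x 0 0
  rwa [zero_smul, ok.zero] at this

theorem self (ok : m.OK) (jac : m.Jac) (had : m.Had lg) (x : V) : lg (x, x) = 0 := by
  have := had.xe x 0
  rwa [at0 ok jac] at this

theorem euc (ok : m.OK) (jac : m.Jac) (had : m.Had lg) (R : ℝ) :
    ∃ C : ℝ, 0 ≤ C ∧ ∀ x y : V, ‖x‖ ≤ R → ‖y‖ ≤ R →
      ‖y - x‖ ≤ C * ‖lg (x, y)‖ ∧ ‖lg (x, y)‖ ≤ C := by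
  obtain ⟨A, A0, hA⟩ := H38.bdd_ball had.c1.continuous R
  obtain ⟨L, L0, hL⟩ := H38.lip_ball (c1 ok 1).fst (max R A)
  refine ⟨max A L, le_max_of_le_left A0, fun x y hx hy => ?_⟩
  have h1 : ‖lg (x, y)‖ ≤ A := hA (x, y) (by rw [Prod.norm_def]; exact max_le hx hy)
  refine ⟨?_, h1.trans (le_max_left _ _)⟩
  have h2 := hL (x, 0) (x, lg (x, y))
    (by rw [Prod.norm_def]; exact max_le_max hx (by simpa using A0))
    (by rw [Prod.norm_def]; exact max_le_max hx h1)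
  rw [had.ex, at0 ok jac] at h2
  have h3 : ‖((x, lg (x, y)) : W) - (x, 0)‖ = ‖lg (x, y)‖ := by simp [Prod.norm_def]
  rw [h3] at h2
  exact h2.trans (mul_le_mul_of_nonneg_right (le_max_right _ _) (norm_nonneg _))

theorem del (ok : m.OK) (jac : m.Jac) (had : m.Had lg) (R : ℝ) :
    ∃ C : ℝ, 0 ≤ C ∧ ∀ p q : W, ‖p‖ ≤ R → ‖q‖ ≤ R →
      ‖q - p‖ ≤ C * (df m lg p q 0 + df m lg p q 1) := by
  obtain ⟨A, -, hA⟩ := H38.bdd_ball (c1 ok 1).fst.continuous R
  obtain ⟨C, C0, hC⟩ := euc ok jac had (max R A)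
  obtain ⟨L, L0, hL⟩ := H38.lip_ball had.c1 (max R A)
  refine ⟨(1 + L) * C, by positivity, fun p q hp hq => ?_⟩
  have p1 : ‖p.1‖ ≤ max R A := ((norm_fst_le p).trans hp).trans (le_max_left _ _)
  have q1 : ‖q.1‖ ≤ max R A := ((norm_fst_le q).trans hq).trans (le_max_left _ _)
  have p2 : ‖(m.Z 1 p).1‖ ≤ max R A := (hA p hp).trans (le_max_right _ _)
  have q2 : ‖(m.Z 1 q).1‖ ≤ max R A := (hA q hq).trans (le_max_right _ _)
  have h0 : ‖q.1 - p.1‖ ≤ C * df m lg p q 0 := by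
    simpa only [df, ok.zero] using (hC _ _ p1 q1).1
  have h1 : ‖(m.Z 1 q).1 - (m.Z 1 p).1‖ ≤ C * df m lg p q 1 := (hC _ _ p2 q2).1
  have d0 : 0 ≤ C * df m lg p q 0 := (norm_nonneg _).trans h0
  have d1 : 0 ≤ C * df m lg p q 1 := (norm_nonneg _).trans h1
  have h2 := hL (p.1, (m.Z 1 p).1) (q.1, (m.Z 1 q).1)
    (by rw [Prod.norm_def]; exact max_le p1 p2) (by rw [Prod.norm_def]; exact max_le q1 q2)
  have e1 : lg (p.1, (m.Z 1 p).1) = p.2 := had.xe p.1 p.2
  have e2 : lg (q.1, (m.Z 1 q).1) = q.2 := had.xe q.1 q.2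
  rw [e1, e2] at h2
  have h3 : ‖((q.1, (m.Z 1 q).1) : W) - (p.1, (m.Z 1 p).1)‖ ≤
      C * df m lg p q 0 + C * df m lg p q 1 := by
    rw [Prod.norm_def]
    exact max_le (h0.trans (le_add_of_nonneg_right d1)) (h1.trans (le_add_of_nonneg_left d0))
  have h4 := h2.trans (mul_le_mul_of_nonneg_left h3 L0)
  have h5 := mul_nonneg L0 (add_nonneg d0 d1)
  rw [Prod.norm_def]
  refine max_le ?_ ?_
  · change ‖q.1 - p.1‖ ≤ _
    nlinarith
  · change ‖q.2 - p.2‖ ≤ _
    nlinarith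

theorem dexp (ok : m.OK) (jac : m.Jac) (x : V) :
    HasFDerivAt (fun b : V => (m.Z 1 (x, b)).1) (m.R x) 0 := by
  have hd : DifferentiableAt ℝ (fun b : V => (m.Z 1 (x, b)).1) 0 :=
    (((c1 ok 1).fst.comp (contDiff_const.prodMk contDiff_id)).differentiable (by norm_num)) 0
  have e : fderiv ℝ (fun b : V => (m.Z 1 (x, b)).1) 0 = m.R x := by
    ext1 b
    have h1 : HasDerivAt (fun s : ℝ => s • b) b 0 := by
      simpa using (hasDerivAt_id (0 : ℝ)).smul_const b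
    have h2 := HasFDerivAt.comp_hasDerivAt_of_eq (0 : ℝ) hd.hasFDerivAt h1 (by simp)
    have h3 := (ContinuousLinearMap.fst ℝ V V).hasFDerivAt.comp_hasDerivAt (0 : ℝ)
      (ok.ode (x, b) 0)
    rw [ok.zero] at h3
    have h4 : ((fun b : V => (m.Z 1 (x, b)).1) ∘ fun s : ℝ => s • b) =
        (ContinuousLinearMap.fst ℝ V V) ∘ fun s => m.Z s (x, b) :=
      funext fun s => ray jac x b s
    rw [h4] at h2
    exact h2.unique h3
  exact e ▸ hd.hasFDerivAt

theorem loc (ok : m.OK) (jac : m.Jac) (had : m.Had lg) (x : V) (δ : ℝ) (hδ : 0 < δ) :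
    ∀ᶠ y in 𝓝 x, ‖m.S x (y - x)‖ ≤ (1 + δ) * ‖lg (x, y)‖ := by
  have h1 := (m.S x).hasFDerivAt.comp (0 : V) (dexp ok jac x)
  have h2 := h1.isLittleO.def hδ
  have h3 : Tendsto (fun y : V => lg (x, y)) (𝓝 x) (𝓝 0) := by
    have : Continuous fun y : V => lg (x, y) :=
      had.c1.continuous.comp (continuous_const.prodMk continuous_id)
    simpa only [self ok jac had] using this.tendsto x
  filter_upwards [h3.eventually h2] with y hy
  simp only [Function.comp, had.ex, at0 ok jac, sub_zero, ContinuousLinearMap.comp_apply,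
    ok.SR] at hy
  have e : m.S x (y - x) = lg (x, y) + (m.S x y - m.S x x - lg (x, y)) := by
    rw [map_sub]
    abel
  rw [e]
  have := norm_add_le (lg (x, y)) (m.S x y - m.S x x - lg (x, y))
  linarith

end RBs

open RBs in
theorem bs : SBS := by
  intro m lg Γ _ _ O a b nw
  have ok := nw.ok
  have jac := nw.jac
  have had := nw.had
  refine ⟨fun γ x y => ?_, fun x y => ?_, self ok jac had, fun z s t => ?_, fun t z => ?_,
    fun R => ?_, euc ok jac had, del ok jac had, loc ok jac had⟩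
  · have h1 := nw.act.flow γ 1 (x, lg (x, y))
    have h2 := had.xe (γ • x) (O γ x (lg (x, y)))
    simp only [had.ex] at h1
    rw [h1] at h2
    simp only at h2
    rw [h2, LinearIsometryEquiv.norm_map]
  · rw [had.rev x y, norm_neg, jac.norm]
  · have h1 : m.Z t z = m.Z (t - s) (m.Z s z) := by rw [← ok.add, sub_add_cancel]
    have h2 := ray jac (m.Z s z).1 (m.Z s z).2 (t - s)
    rw [h1, ← h2, had.xe, norm_smul, jac.norm, Real.norm_eq_abs, abs_sub_comm]
  · have h1 := jac.scale t (-1) z.1 z.2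
    simp only [neg_smul, one_smul, neg_mul, one_mul] at h1
    exact h1
  · obtain ⟨A, -, hA⟩ := H38.bdd_ball (c1 ok 1).fst.continuous R
    refine ⟨A, fun x y hx hy => ?_⟩
    have := hA (x, lg (x, y)) (by rw [Prod.norm_def]; exact max_le hx hy)
    rwa [had.ex] at this

end Pool.Agent.MP_3ee8cb_gt.DNC0
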