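import Pool.Agent.MP_3ee8cb_gt.DNC0.Spec

/-! The derivative of the approximate Busemann function; flatness of the limit. -/

namespace Pool.Agent.MP_3ee8cb_gt.DNC0

open DN (Dim dm)

variable [Dim]

open Set Filter Topology Asymptotics Real DN
open scoped RealInnerProductSpace

namespace RDer

theorem d_norm {v : V} (hv : v ≠ 0) :
    HasFDerivAt (fun x : V => ‖x‖) (‖v‖⁻¹ • innerSL ℝ v) v := by
  have h0 : ‖v‖ ≠ 0 := norm_ne_zero_iff.2 hv
  have h1 := (hasStrictFDerivAt_norm_sq v).hasFDerivAt.sqrt (pow_ne_zero 2 h0)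
  have e : (fun x : V => √(‖x‖ ^ 2)) = fun x => ‖x‖ := funext fun x => sqrt_sq (norm_nonneg x)
  rw [e] at h1
  refine h1.congr_fderiv ?_
  ext w
  simp only [sqrt_sq (norm_nonneg v), ContinuousLinearMap.smul_apply, smul_eq_mul, nsmul_eq_mul]
  field_simp
  norm_num

/-- The derivative of the direction. -/
theorem d_nz {z : W} (hz : z.2 ≠ 0) : DifferentiableAt ℝ nz z ∧ ∀ ξ : W, fderiv ℝ nz z ξ =
    (ξ.1, ‖z.2‖⁻¹ • ξ.2 - (‖z.2‖⁻¹ ^ 3 * ⟪z.2, ξ.2⟫) • z.2) := by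
  have h0 : ‖z.2‖ ≠ 0 := norm_ne_zero_iff.2 hz
  have h1 := (d_norm hz).comp z (hasFDerivAt_snd (𝕜 := ℝ) (p := z))
  have h2 := (hasDerivAt_inv h0).comp_hasFDerivAt z h1
  have h3 := (hasFDerivAt_fst (𝕜 := ℝ) (p := z)).prodMk
    (h2.smul (hasFDerivAt_snd (𝕜 := ℝ) (p := z)))
  have h4 : HasFDerivAt nz _ z := h3
  refine ⟨h4.differentiableAt, fun ξ => ?_⟩
  rw [h4.fderiv]
  refine Prod.ext rfl ?_
  simp only [ContinuousLinearMap.prod_apply, ContinuousLinearMap.add_apply,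
    ContinuousLinearMap.smul_apply, ContinuousLinearMap.smulRight_apply, Function.comp_apply,
    ContinuousLinearMap.comp_apply, ContinuousLinearMap.coe_snd', smul_eq_mul, innerSL_apply_apply]
  rw [sub_eq_add_neg, ← neg_smul]
  congr 2
  field_simp

theorem unit {z : W} (hz : z.2 ≠ 0) : ‖(nz z).2‖ = 1 := by
  simp [nz, norm_smul, hz]

theorem nz_eq {z : W} (hz : ‖z.2‖ = 1) : nz z = z := by
  simp [nz, hz]

theorem c_nz {z : W} (hz : z.2 ≠ 0) : ContDiffAt ℝ 1 nz z :=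
  contDiffAt_fst.prodMk
    (((contDiffAt_snd.norm ℝ hz).inv (norm_ne_zero_iff.2 hz)).smul contDiffAt_snd)

variable {m : MF} {lg : W → V}

theorem c_Z (h : m.OK) (T : ℝ) : ContDiff ℝ 1 (m.Z T) :=
  h.cZ.comp (contDiff_const.prodMk contDiff_id)

/-- The derivative of the distance. -/
theorem d_dist (h : m.Had lg) {q : W} (hq : lg q ≠ 0) : ∃ D : W →L[ℝ] ℝ,
    HasFDerivAt (fun q => ‖lg q‖) D q ∧ ∀ η, D η =
      ‖lg q‖⁻¹ * (-⟪lg q, m.S q.1 η.1⟫ - ⟪lg q.swap, m.S q.2 η.2⟫) := by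
  have h1 := (h.c1.differentiable one_ne_zero q).hasFDerivAt
  refine ⟨_, (d_norm hq).comp q h1, fun η => ?_⟩
  have h2 := (h1.norm_sq.const_mul (2⁻¹ : ℝ)).fderiv
  have e : (fun q => ‖lg q‖ ^ 2 / 2) = fun q => 2⁻¹ * ‖lg q‖ ^ 2 := funext fun q => by ring
  rw [← h.grad q η, e, h2]
  simp

end RDer

open RDer

theorem der : SDER := by
  intro m lg Γ _ _ O a b N _ J
  refine ⟨fun T z y hz hl => ?_, fun T z ξ y hz hl => ?_, fun z hz => unit hz,
    fun z ξ hz h => ⟨nz_eq hz, ?_⟩, fun z ξ hz => ?_⟩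
  · have h1 : ContDiffAt ℝ 1 (fun q : W × V => m.Z T (nz q.1)) (z, y) :=
      (c_Z N.ok T).contDiffAt.comp (z, y) ((c_nz hz).comp (z, y) contDiffAt_fst)
    have h2 : ContDiffAt ℝ 1 (fun q : W × V => lg (q.2, (m.Z T (nz q.1)).1)) (z, y) :=
      N.had.c1.contDiffAt.comp (z, y) (contDiffAt_snd.prodMk h1.fst)
    exact (h2.norm ℝ hl).sub contDiffAt_const
  · obtain ⟨D, hD, eD⟩ := d_dist N.had hl
    obtain ⟨dn, en'⟩ := d_nz hz
    have h1 := ((c_Z N.ok T).differentiable one_ne_zero (nz z)).hasFDerivAt.comp z dn.hasFDerivAt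
    have h2 := (hasFDerivAt_const y z).prodMk h1.fst
    have h3 := (HasFDerivAt.comp z (g := fun q => ‖lg q‖)
      (f := fun x => (y, (m.Z T (nz x)).1)) hD h2).sub_const (T : ℝ)
    have h4 : HasFDerivAt (fun z => bt m lg T z y) _ z := h3
    have L0 : ‖lg (y, (m.Z T (nz z)).1)‖ ≠ 0 := norm_ne_zero_iff.2 hl
    have h5 : lg ((m.Z T (nz z)).1, y) =
        -(‖lg (y, (m.Z T (nz z)).1)‖ • (m.Z T (sg m lg T (nz z) y)).2) := by
      have e := N.jac.scale 1 ‖lg (y, (m.Z T (nz z)).1)‖ y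
        (‖lg (y, (m.Z T (nz z)).1)‖⁻¹ • lg (y, (m.Z T (nz z)).1))
      rw [smul_inv_smul₀ L0, mul_one] at e
      rw [N.had.rev, e, sg, ← N.ok.add, add_sub_cancel]
      rfl
    have h6 : ⟪m.ver (nz z) (fderiv ℝ nz z ξ), (nz z).2⟫ = 0 := by
      have h0 : ‖z.2‖ ≠ 0 := norm_ne_zero_iff.2 hz
      rw [J.tan, en']
      simp only [nz, inner_sub_left, inner_smul_left, inner_smul_right, real_inner_self_eq_norm_sq,
        conj_trivial, real_inner_comm z.2 ξ.2]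
      field_simp
      ring
    have h7 : m.S (m.Z T (nz z)).1 (fderiv ℝ (m.Z T) (nz z) (fderiv ℝ nz z ξ)).1 =
        m.J (nz z) (fderiv ℝ nz z ξ) T := rfl
    rw [DT, h4.fderiv, ← J.al _ _ T h6, en, inner_sub_right]
    simp only [ContinuousLinearMap.comp_apply, ContinuousLinearMap.prod_apply, eD,
      ContinuousLinearMap.zero_apply, map_zero, inner_zero_right, ContinuousLinearMap.coe_fst',
      Prod.swap_prod_mk, h5, h7, inner_neg_left, inner_smul_left, conj_trivial]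
    rw [real_inner_comm]
    field_simp
    ring
  · have h0 : z.2 ≠ 0 := norm_ne_zero_iff.1 (hz ▸ one_ne_zero)
    rw [(d_nz h0).2, real_inner_comm, h, hz]
    simp
  · have h0 : 0 < ‖z.2‖ := norm_pos_iff.2 hz
    have h1 := inv_pos.2 h0
    have h2 := norm_fst_le ξ
    have h3 := norm_snd_le ξ
    have h4 := norm_nonneg ξ
    rw [(d_nz hz).2, Prod.norm_def]
    refine max_le (by nlinarith) ((norm_sub_le _ _).trans ?_)
    have h5 : ‖(‖z.2‖⁻¹ ^ 3 * ⟪z.2, ξ.2⟫) • z.2‖ ≤ ‖z.2‖⁻¹ * ‖ξ.2‖ := by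
      rw [norm_smul, norm_mul, norm_of_nonneg (pow_pos h1 3).le]
      calc _ ≤ ‖z.2‖⁻¹ ^ 3 * (‖z.2‖ * ‖ξ.2‖) * ‖z.2‖ := by
            gcongr
            exact norm_inner_le_norm _ _
        _ = _ := by field_simp
    rw [norm_smul, norm_of_nonneg h1.le]
    nlinarith [mul_le_mul_of_nonneg_left h3 h1.le]

theorem flat : SFLAT := by
  intro m lg Γ _ _ O a b N β D B U z e hz he
  have h0 : z.2 ≠ 0 := norm_ne_zero_iff.1 (hz ▸ one_ne_zero)
  have lo : ∀ s : ℝ, 0 ≤ β z (m.Z s (z.1, e)).1 := fun s => by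
    refine ge_of_tendsto' (U.lim z _ h0) fun T => ?_
    have h1 := N.had.hinge z.1 (s • e) ((T : ℝ) • z.2)
    rw [N.jac.scale, N.jac.scale, mul_one, mul_one] at h1
    have h2 : (T : ℝ) ≤ ‖s • e - (T : ℝ) • z.2‖ := by
      refine abs_le_of_sq_le_sq' ?_ (norm_nonneg _) |>.2
      rw [norm_sub_sq_real, inner_smul_left, inner_smul_right, he, norm_smul (T : ℝ), hz,
        mul_one, Real.norm_natCast]
      nlinarith [sq_nonneg ‖s • e‖]
    rw [bt, nz_eq hz]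
    exact sub_nonneg.2 (h2.trans h1)
  have hi : ∀ y, β z y ≤ ‖lg (y, (m.Z 1 z).1)‖ - 1 := fun y => by
    refine le_of_tendsto (U.lim z y h0) ((eventually_ge_atTop 1).mono fun T hT => ?_)
    have h1 := N.had.tri y (m.Z 1 z).1 (m.Z T z).1
    have h2 : (1 : ℝ) ≤ T := by exact_mod_cast hT
    rw [B.geo, hz, abs_of_nonpos (by linarith)] at h1
    rw [bt, nz_eq hz]
    linarith
  have e1 : lg (z.1, (m.Z 1 z).1) = z.2 := N.had.xe z.1 z.2
  have e0 : (m.Z 0 (z.1, e)).1 = z.1 := by rw [N.ok.zero]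
  obtain ⟨L, hL, eL⟩ := d_dist N.had (q := ((m.Z 0 (z.1, e)).1, (m.Z 1 z).1))
    (by rwa [e0, e1])
  have h5 : HasDerivAt (fun s => (m.Z s (z.1, e)).1) (m.vf (m.Z 0 (z.1, e))).1 0 :=
    (ContinuousLinearMap.fst ℝ V V).hasFDerivAt.comp_hasDerivAt 0 (N.ok.ode (z.1, e) 0)
  have h1 := HasDerivAt.prodMk h5 (hasDerivAt_const (0 : ℝ) (m.Z 1 z).1)
  have h2 := HasFDerivAt.comp_hasDerivAt (0 : ℝ) (l := fun q => ‖lg q‖)
    (f := fun s => ((m.Z s (z.1, e)).1, (m.Z 1 z).1)) hL h1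
  have h3 : L ((m.vf (m.Z 0 (z.1, e))).1, 0) = 0 := by
    rw [eL, N.ok.zero]
    simp [MF.vf, N.ok.SR, e1, real_inner_comm, he]
  rw [h3] at h2
  have h4 := h2.isLittleO
  simp only [Function.comp_apply, e0, e1, hz, sub_zero, smul_zero] at h4
  refine IsBigO.trans_isLittleO (isBigO_of_le _ fun s => ?_) h4
  rw [norm_of_nonneg (lo s)]
  exact (hi _).trans (le_abs_self _)

end Pool.Agent.MP_3ee8cb_gt.DNC0
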