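import Pool.Agent.MP_3ee8cb_gt.DNC0.Spec

/-! Moving the data by the flow and the group; the Cauchy form of the core estimate. -/

namespace Pool.Agent.MP_3ee8cb_gt.DNC0

open DN (Dim dm)

variable [Dim]

open Set Filter Topology Asymptotics Real DN
open scoped RealInnerProductSpace ContDiff

namespace RMov

variable {m : MF} {Γ : Type} [Group Γ] [MulAction Γ V] {O : Γ → V → V ≃ₗᵢ[ℝ] V}

theorem dZ (o : m.OK) (t : ℝ) : Differentiable ℝ (m.Z t) := by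
  have h : ContDiff ℝ 1 fun z : W => ((t, z) : ℝ × W) := contDiff_const.prodMk contDiff_id
  have := (o.cZ.comp h).differentiable one_ne_zero
  simpa only [Function.comp_def] using this

theorem dA (act : Act m Γ O) (γ : Γ) : Differentiable ℝ (ac O γ) :=
  (act.c1 γ).differentiable one_ne_zero

theorem fl_ac (act : Act m Γ O) (γ : Γ) (t : ℝ) (z : W) :
    m.Z t (ac O γ z) = ac O γ (m.Z t z) := act.flow γ t z

theorem hor_ac (act : Act m Γ O) (γ : Γ) (z ξ : W) :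
    m.hor (ac O γ z) (fderiv ℝ (ac O γ) z ξ) = O γ z.1 (m.hor z ξ) := act.hor γ z ξ

theorem ver_ac (act : Act m Γ O) (γ : Γ) (z ξ : W) :
    m.ver (ac O γ z) (fderiv ℝ (ac O γ) z ξ) = O γ z.1 (m.ver z ξ) := act.ver γ z ξ

theorem chain1 (o : m.OK) (act : Act m Γ O) (γ : Γ) (t : ℝ) (w ζ : W) :
    fderiv ℝ (m.Z t) (ac O γ w) (fderiv ℝ (ac O γ) w ζ) =
      fderiv ℝ (ac O γ) (m.Z t w) (fderiv ℝ (m.Z t) w ζ) := by
  have e : m.Z t ∘ ac O γ = ac O γ ∘ m.Z t := funext fun z => fl_ac act γ t z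
  have h1 := fderiv_comp w (dZ o t (ac O γ w)) (dA act γ w)
  have h2 := fderiv_comp w (dA act γ (m.Z t w)) (dZ o t w)
  rw [e, h2] at h1
  exact (congrArg (fun L : W →L[ℝ] W => L ζ) h1).symm

theorem chain2 (o : m.OK) (s t : ℝ) (z ξ : W) :
    fderiv ℝ (m.Z s) (m.Z t z) (fderiv ℝ (m.Z t) z ξ) = fderiv ℝ (m.Z (s + t)) z ξ := by
  have e : m.Z s ∘ m.Z t = m.Z (s + t) := funext fun z => (o.add s t z).symm
  have h1 := fderiv_comp z (dZ o s (m.Z t z)) (dZ o t z)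
  rw [e] at h1
  exact (congrArg (fun L : W →L[ℝ] W => L ξ) h1).symm

theorem om_sub (m : MF) (z ξ η η' : W) : om m z ξ (η - η') = om m z ξ η - om m z ξ η' := by
  unfold om
  simp only [map_sub, inner_sub_right]
  ring

end RMov

open RMov in
theorem mov : SMOV := by
  intro m lg Γ _ _ O a b nw bs γ k z ξ
  have o := nw.ok
  have act := nw.act
  have hdf : ∀ (q : W) (t : ℝ),
      df m lg (ac O γ (m.Z k z)) (ac O γ (m.Z k q)) t = df m lg z q (t + k) := by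
    intro q t
    unfold df
    rw [fl_ac act, fl_ac act, ← o.add, ← o.add]
    exact bs.eqv γ _ _
  refine ⟨?_, hdf, fun q ε T cl => ⟨⟨?_, ?_, fun j hj => ?_, ?_⟩, ?_⟩⟩
  · unfold nn
    rw [hor_ac act, ver_ac act, LinearIsometryEquiv.norm_map, LinearIsometryEquiv.norm_map]
  · change ‖O γ _ (m.Z k z).2‖ = 1
    rw [LinearIsometryEquiv.norm_map, nw.jac.norm, cl.nz]
  · change ‖O γ _ (m.Z k q).2‖ = 1
    rw [LinearIsometryEquiv.norm_map, nw.jac.norm, cl.nq]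
  · have := cl.le (j + k) (by omega)
    rw [hdf, mul_assoc, ← exp_add]
    push_cast at this
    rwa [show -(a * k) + -(a * j) = -(a * (j + k)) by ring]
  · have := cl.meet
    push_cast at this
    rw [fl_ac act, fl_ac act, ← o.add, ← o.add]
    exact congrArg (fun x => γ • x) this
  · have := cl.meet
    unfold en MF.J
    push_cast at this ⊢
    rw [chain1 o act, chain2 o, fl_ac act, fl_ac act, ← o.add, ← o.add, hor_ac act]
    change ⟪_, O γ (m.Z (T + k) q).1 (m.Z (T + k) q).2 -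
      O γ (m.Z (T + k) z).1 (m.Z (T + k) z).2⟫ = _
    rw [← this, ← map_sub, LinearIsometryEquiv.inner_map_map]

open RMov in
theorem tel2 : STEL2 := by
  intro m lg Γ _ _ O a b nw bs jf mv tel A hA
  obtain ⟨K, hK, hc⟩ := nw.act.cpt
  obtain ⟨R₀, hR₀⟩ := hK.isBounded.exists_norm_le
  obtain ⟨C₁, c1, h1⟩ := tel (max R₀ 1) A
  obtain ⟨C₂, c2, h2⟩ := jf.omb (max R₀ 1)
  obtain ⟨R', hR'⟩ := bs.bdd (max R₀ A)
  obtain ⟨C₃, c3, h3⟩ := bs.del (max R' 1)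
  refine ⟨2 * C₁ * A ^ 2 + 2 * C₂ * C₃, by positivity, ?_⟩
  intro k T T' z q q' ξ η hT hT' cl cl' e0 e1
  obtain ⟨T, rfl⟩ := Nat.exists_eq_add_of_le' hT
  obtain ⟨T', rfl⟩ := Nat.exists_eq_add_of_le' hT'
  obtain ⟨γ, hγ⟩ := hc (m.Z k z).1
  obtain ⟨m1, m2, m3⟩ := mv γ k z ξ
  obtain ⟨d1, n1⟩ := m3 q A T cl
  obtain ⟨d2, n2⟩ := m3 q' A T' cl'
  have m4 := (mv γ k q ξ).2.1 q'
  have gr := jf.grow z ξ k cl.nz (Nat.cast_nonneg k)
  rw [← m1] at gr
  rw [← n1, ← n2]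
  have hz1 : ‖(ac O γ (m.Z k z)).1‖ ≤ R₀ := hR₀ _ hγ
  generalize ac O γ (m.Z k z) = z' at *
  generalize ac O γ (m.Z k q) = q₁ at *
  generalize ac O γ (m.Z k q') = q₂ at *
  generalize fderiv ℝ (ac O γ) (m.Z k z) (fderiv ℝ (m.Z k) z ξ) = ξ' at *
  have hz : ‖z'‖ ≤ max R₀ 1 := by
    rw [Prod.norm_def, d1.nz]
    exact max_le_max hz1 le_rfl
  have x0 : 0 < exp (-(a * k)) := exp_pos _
  have x1 : exp (-(a * k)) ≤ 1 :=
    exp_le_one_iff.2 (neg_nonpos.2 (mul_nonneg nw.a0.le (Nat.cast_nonneg k)))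
  have ε0 : 0 ≤ A * exp (-(a * k)) := by positivity
  have ε1 : A * exp (-(a * k)) ≤ A := mul_le_of_le_one_right hA x1
  have bq : ∀ (S : ℕ) (p : W), Cl m lg a (A * exp (-(a * k))) S z' p → ‖p‖ ≤ max R' 1 := by
    intro S p c
    have := c.le 0 (Nat.zero_le _)
    unfold df at this
    rw [Nat.cast_zero, nw.ok.zero, nw.ok.zero, mul_zero, neg_zero, exp_zero, mul_one] at this
    rw [Prod.norm_def, c.nq]
    exact max_le_max (hR' _ _ (hz1.trans (le_max_left _ _))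
      ((this.trans ε1).trans (le_max_right _ _))) le_rfl
  have t1 := h1 T z' q₁ ξ' _ hz ε0 ε1 d1
  have t2 := h1 T' z' q₂ ξ' _ hz ε0 ε1 d2
  have t3 := (h2 z' ξ' (q₂ - q₁) hz).1
  have t4 := h3 q₁ q₂ (bq _ _ d1) (bq _ _ d2)
  rw [m4, m4, zero_add, add_comm (1 : ℝ)] at t4
  have η0 : 0 ≤ η := (norm_nonneg _).trans e0
  have t5 : ‖q₂ - q₁‖ ≤ C₃ * (2 * η) :=
    t4.trans (mul_le_mul_of_nonneg_left (by linarith) c3)
  have N0 : 0 ≤ nn m b z' ξ' := sqrt_nonneg _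
  have N1 : 0 ≤ nn m b z ξ := sqrt_nonneg _
  have t6 : |om m z' ξ' (q₂ - q₁)| ≤ C₂ * (exp (b * k) * nn m b z ξ) * (C₃ * (2 * η)) :=
    t3.trans (mul_le_mul (mul_le_mul_of_nonneg_left gr c2) t5 (norm_nonneg _) (by positivity))
  have ex : exp (b * k) * exp (-(a * k)) ^ 2 = exp ((b - 2 * a) * k) := by
    rw [sq, ← exp_add, ← exp_add]
    congr 1
    ring
  have t7 : C₁ * nn m b z' ξ' * (A * exp (-(a * k))) ^ 2 ≤
      C₁ * A ^ 2 * (nn m b z ξ * exp ((b - 2 * a) * k)) := by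
    refine (mul_le_mul_of_nonneg_right (mul_le_mul_of_nonneg_left gr c1) (sq_nonneg _)).trans
      (le_of_eq ?_)
    rw [← ex]
    ring
  have e : en m T z' ξ' q₁ - en m T' z' ξ' q₂ = (en m T z' ξ' q₁ - om m z' ξ' (q₁ - z')) -
      (en m T' z' ξ' q₂ - om m z' ξ' (q₂ - z')) - om m z' ξ' (q₂ - q₁) := by
    simp only [om_sub]
    ring
  have p1 : 0 ≤ C₁ * A ^ 2 * (nn m b z ξ * (exp (b * k) * η)) := by positivity
  have p2 : 0 ≤ C₂ * C₃ * (nn m b z ξ * exp ((b - 2 * a) * k)) := by positivity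
  rw [e]
  rw [abs_le] at t1 t2 t6 ⊢
  constructor <;> nlinarith [t1.1, t1.2, t2.1, t2.2, t6.1, t6.2]

end Pool.Agent.MP_3ee8cb_gt.DNC0
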