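import Pool.Agent.MP_3ee8cb_gt.DN.Defs
import Pool.Agent.MP_3ee8cb_gt.DNC0.H38Tay

/-! The symplectic pairing of a Jacobi field with the difference of two close orbits. -/

namespace Pool.Agent.MP_3ee8cb_gt.DNC0.H38

open DN (Dim dm)

variable [Dim]

open Set Filter Topology Metric DN
open scoped RealInnerProductSpace

noncomputable section

/-- The symplectic form. -/
def om0 (m : MF) (z ξ η : V × V) : ℝ := ⟪m.hor z ξ, m.ver z η⟫ - ⟪m.ver z ξ, m.hor z η⟫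

variable {Γ : Type} [Group Γ] [MulAction Γ V]

/-- The action on pairs (point, frame components). -/
def act (O : Γ → V → V ≃ₗᵢ[ℝ] V) (γ : Γ) (z : V × V) : V × V := (γ • z.1, O γ z.1 z.2)

/-- The pairing in the chart `γ`. -/
def pr (m : MF) (O : Γ → V → V ≃ₗᵢ[ℝ] V) (γ : Γ) (p ζ q : V × V) : ℝ :=
  om0 m (act O γ p) (fderiv ℝ (act O γ) p ζ) (act O γ q - act O γ p)

variable {m : MF} {lg : V × V → V} {O : Γ → V → V ≃ₗᵢ[ℝ] V}

theorem om0_sub (z ξ η η' : V × V) : om0 m z ξ (η - η') = om0 m z ξ η - om0 m z ξ η' := by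
  simp only [om0, map_sub, inner_sub_right]
  ring

theorem z_cd (ok : m.OK) (t : ℝ) : ContDiff ℝ 1 (m.Z t) :=
  ok.cZ.comp (contDiff_const.prodMk contDiff_id)

theorem z_diff (ok : m.OK) (t : ℝ) (z : V × V) : DifferentiableAt ℝ (m.Z t) z :=
  (z_cd ok t).differentiable (by norm_num) z

theorem act_diff (ac : Act m Γ O) (γ : Γ) (z : V × V) : DifferentiableAt ℝ (act O γ) z :=
  (ac.c1 γ).differentiable (by norm_num) z

theorem act_mul (ac : Act m Γ O) (γ δ : Γ) (z : V × V) :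
    act O (γ * δ) z = act O γ (act O δ z) := by
  simp only [act, mul_smul, ac.mul]

theorem act_flow (ac : Act m Γ O) (γ : Γ) (t : ℝ) (z : V × V) :
    m.Z t (act O γ z) = act O γ (m.Z t z) := ac.flow γ t z

theorem act_hor (ac : Act m Γ O) (γ : Γ) (z ξ : V × V) :
    m.hor (act O γ z) (fderiv ℝ (act O γ) z ξ) = O γ z.1 (m.hor z ξ) := ac.hor γ z ξ

theorem act_ver (ac : Act m Γ O) (γ : Γ) (z ξ : V × V) :
    m.ver (act O γ z) (fderiv ℝ (act O γ) z ξ) = O γ z.1 (m.ver z ξ) := ac.ver γ z ξ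

theorem om0_act (ac : Act m Γ O) (γ : Γ) (z ξ η : V × V) :
    om0 m (act O γ z) (fderiv ℝ (act O γ) z ξ) (fderiv ℝ (act O γ) z η) = om0 m z ξ η := by
  simp only [om0, act_hor ac, act_ver ac, LinearIsometryEquiv.inner_map_map]

theorem om0_flow (ja : m.Jac) (t : ℝ) (z ξ η : V × V) :
    om0 m (m.Z t z) (fderiv ℝ (m.Z t) z ξ) (fderiv ℝ (m.Z t) z η) = om0 m z ξ η :=
  ja.symp z ξ η t

theorem z_coc (ok : m.OK) (s t : ℝ) (z ξ : V × V) :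
    fderiv ℝ (m.Z (s + t)) z ξ = fderiv ℝ (m.Z s) (m.Z t z) (fderiv ℝ (m.Z t) z ξ) := by
  have : m.Z (s + t) = m.Z s ∘ m.Z t := funext (ok.add s t)
  rw [this, fderiv_comp z (z_diff ok _ _) (z_diff ok _ _)]
  rfl

theorem z_zero (ok : m.OK) (z ξ : V × V) : fderiv ℝ (m.Z 0) z ξ = ξ := by
  have : m.Z 0 = id := funext ok.zero
  rw [this, fderiv_id]
  rfl

theorem lg_act (ac : Act m Γ O) (ha : m.Had lg) (γ : Γ) (x y : V) :
    lg (γ • x, γ • y) = O γ x (lg (x, y)) := by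
  have h1 := ac.flow γ 1 (x, lg (x, y))
  have h2 := ha.xe (γ • x) (O γ x (lg (x, y)))
  simp only at h1
  rw [h1, ha.ex] at h2
  exact h2

theorem z_rest (ok : m.OK) (ja : m.Jac) (x : V) : m.Z 1 (x, 0) = (x, 0) := by
  have := ja.scale 1 0 x 0
  simpa [ok.zero] using this

theorem near (ok : m.OK) (ja : m.Jac) (ha : m.Had lg) (R : ℝ) : ∃ C, 0 ≤ C ∧ ∀ x x' : V,
    ‖x‖ ≤ R → ‖lg (x, x')‖ ≤ R → ‖x' - x‖ ≤ C * ‖lg (x, x')‖ := by
  obtain ⟨C, C0, hC⟩ := lip_ball (z_cd ok 1) R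
  refine ⟨C, C0, fun x x' hx hx' => ?_⟩
  have := hC (x, 0) (x, lg (x, x')) (by simpa [Prod.norm_def] using hx)
    (by simpa [Prod.norm_def] using ⟨hx, hx'⟩)
  have h2 := (norm_fst_le _).trans this
  rw [Prod.fst_sub, ha.ex, z_rest ok ja] at h2
  simpa [Prod.norm_def] using h2

theorem near2 (ok : m.OK) (ja : m.Jac) (ha : m.Had lg) (R : ℝ) : ∃ C, 0 ≤ C ∧ ∀ (p q : V × V)
    (δ : ℝ), ‖p.1‖ ≤ R → ‖p.2‖ = 1 → δ ≤ R → ‖lg (p.1, q.1)‖ ≤ δ →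
    ‖lg ((m.Z 1 p).1, (m.Z 1 q).1)‖ ≤ δ → ‖q - p‖ ≤ C * δ := by
  obtain ⟨B, B0, hB⟩ := bdd_ball (z_cd ok 1).continuous (max R 1)
  obtain ⟨C, C0, hC⟩ := near ok ja ha (max R B)
  obtain ⟨L, L0, hL⟩ := lip_ball ha.c1 (max R B + C * max R B)
  refine ⟨C + L * C, by positivity, fun p q δ hp hp1 hδ h0 h1 => ?_⟩
  have δ0 : 0 ≤ δ := (norm_nonneg _).trans h0
  have hδ' : δ ≤ max R B := le_max_of_le_left hδ
  have a0 : ‖p.1‖ ≤ max R B := le_max_of_le_left hp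
  have a1 : ‖(m.Z 1 p).1‖ ≤ max R B := le_max_of_le_right ((norm_fst_le _).trans (hB p
    (by rw [Prod.norm_def]; exact max_le_max hp hp1.le)))
  have b0 : ‖q.1 - p.1‖ ≤ C * δ :=
    (hC _ _ a0 (h0.trans hδ')).trans (mul_le_mul_of_nonneg_left h0 C0)
  have b1 : ‖(m.Z 1 q).1 - (m.Z 1 p).1‖ ≤ C * δ :=
    (hC _ _ a1 (h1.trans hδ')).trans (mul_le_mul_of_nonneg_left h1 C0)
  have cδ : C * δ ≤ C * max R B := mul_le_mul_of_nonneg_left hδ' C0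
  have cδ0 : 0 ≤ C * δ := by positivity
  have c0 : ‖q.1‖ ≤ max R B + C * max R B := by
    have := norm_add_le p.1 (q.1 - p.1)
    rw [add_sub_cancel] at this
    linarith
  have c1 : ‖(m.Z 1 q).1‖ ≤ max R B + C * max R B := by
    have := norm_add_le (m.Z 1 p).1 ((m.Z 1 q).1 - (m.Z 1 p).1)
    rw [add_sub_cancel] at this
    linarith
  have := hL (p.1, (m.Z 1 p).1) (q.1, (m.Z 1 q).1)
    (by rw [Prod.norm_def]; exact max_le (by linarith) (by linarith))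
    (by rw [Prod.norm_def]; exact max_le c0 c1)
  rw [ha.xe p.1 p.2, ha.xe q.1 q.2] at this
  have d : ‖(q.1, (m.Z 1 q).1) - (p.1, (m.Z 1 p).1)‖ ≤ C * δ := by
    rw [Prod.norm_def]
    exact max_le b0 b1
  have e := this.trans (mul_le_mul_of_nonneg_left d L0)
  have f : 0 ≤ L * (C * δ) := by positivity
  rw [Prod.norm_def]
  refine max_le ?_ ?_
  · rw [Prod.fst_sub]
    linarith
  · rw [Prod.snd_sub]
    linarith

theorem vf_cd (ok : m.OK) (h2 : ContDiff ℝ 2 m.om) : ContDiff ℝ 2 m.vf := by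
  have h1 : ContDiff ℝ 2 fun z : V × V => m.R z.1 z.2 :=
    (ok.cR.comp contDiff_fst).clm_apply contDiff_snd
  exact h1.prodMk (((h2.comp contDiff_fst).clm_apply h1).clm_apply contDiff_snd).neg

theorem om0_le (ok : m.OK) (R : ℝ) : ∃ C, 0 ≤ C ∧ ∀ z ξ η : V × V, ‖z‖ ≤ R →
    |om0 m z ξ η| ≤ C * (‖m.hor z ξ‖ + ‖m.ver z ξ‖) * ‖η‖ := by
  have h1 : Continuous m.hor :=
    (ok.cS.continuous.comp continuous_fst).clm_comp continuous_const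
  have h2 : Continuous m.ver := by
    refine continuous_const.add (Continuous.clm_comp ?_ continuous_const)
    exact (((ContinuousLinearMap.flipₗᵢ ℝ V V V).continuous.comp
      (ok.com.continuous.comp continuous_fst))).clm_apply continuous_snd
  obtain ⟨A, A0, hA⟩ := bdd_ball h1 R
  obtain ⟨B, B0, hB⟩ := bdd_ball h2 R
  refine ⟨A + B, by positivity, fun z ξ η hz => ?_⟩
  have a1 : ‖m.hor z η‖ ≤ A * ‖η‖ := (m.hor z).le_of_opNorm_le (hA z hz) η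
  have a2 : ‖m.ver z η‖ ≤ B * ‖η‖ := (m.ver z).le_of_opNorm_le (hB z hz) η
  have b1 := (abs_real_inner_le_norm (m.hor z ξ) (m.ver z η)).trans
    (mul_le_mul_of_nonneg_left a2 (norm_nonneg _))
  have b2 := (abs_real_inner_le_norm (m.ver z ξ) (m.hor z η)).trans
    (mul_le_mul_of_nonneg_left a1 (norm_nonneg _))
  refine (abs_sub _ _).trans ((add_le_add b1 b2).trans ?_)
  have n1 := norm_nonneg (m.hor z ξ)
  have n2 := norm_nonneg (m.ver z ξ)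
  have n3 := norm_nonneg η
  have : 0 ≤ A * ‖m.hor z ξ‖ * ‖η‖ + B * ‖m.ver z ξ‖ * ‖η‖ := by positivity
  nlinarith

theorem tay_comp (ok : m.OK) (h2 : ContDiff ℝ 2 m.om) {A : V × V → V × V} (hA : ContDiff ℝ 2 A)
    (R : ℝ) : ∃ C, 0 ≤ C ∧ ∀ p q : V × V, ‖p‖ ≤ R → ‖q‖ ≤ R →
      ‖A (m.Z 1 q) - A (m.Z 1 p) - fderiv ℝ A (m.Z 1 p) (fderiv ℝ (m.Z 1) p (q - p))‖ ≤
        C * ‖q - p‖ ^ 2 := by
  obtain ⟨a, a0, ha⟩ := tay_flow (vf_cd ok h2) ok.cZ ok.zero ok.ode R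
  obtain ⟨b, b0, hb⟩ := flow_ball ok.cZ R
  obtain ⟨c, c0, hc⟩ := tay_ball hA b
  obtain ⟨d, d0, hd⟩ := bdd_ball (hA.continuous_fderiv (by norm_num)) b
  refine ⟨c * b ^ 2 + d * a, by positivity, fun p q hp hq => ?_⟩
  obtain ⟨e1, e2⟩ := hb 1 (by simp) p hp
  have e3 := (hb 1 (by simp) q hq).1
  have e : A (m.Z 1 q) - A (m.Z 1 p) - fderiv ℝ A (m.Z 1 p) (fderiv ℝ (m.Z 1) p (q - p)) =
      (A (m.Z 1 q) - A (m.Z 1 p) - fderiv ℝ A (m.Z 1 p) (m.Z 1 q - m.Z 1 p)) +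
      fderiv ℝ A (m.Z 1 p) (m.Z 1 q - m.Z 1 p - fderiv ℝ (m.Z 1) p (q - p)) := by
    rw [map_sub (fderiv ℝ A (m.Z 1 p)) (m.Z 1 q - m.Z 1 p)]
    abel
  rw [e]
  have f1 : ‖m.Z 1 q - m.Z 1 p‖ ^ 2 ≤ (b * ‖q - p‖) ^ 2 := by
    have := e2 q hq
    gcongr
  have f2 := (hc _ _ e1 e3).trans (mul_le_mul_of_nonneg_left f1 c0)
  have f3 := ((fderiv ℝ A (m.Z 1 p)).le_of_opNorm_le (hd _ e1) _).trans
    (mul_le_mul_of_nonneg_left (ha p q hp hq) d0)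
  calc _ ≤ _ := (norm_add_le _ _).trans (add_le_add f2 f3)
    _ = _ := by ring

omit [Group Γ] [MulAction Γ V] in
theorem fin_bound {s : Set Γ} (hs : s.Finite) {P : Γ → ℝ → Prop}
    (mono : ∀ γ C C', C ≤ C' → P γ C → P γ C') (h : ∀ γ, ∃ C, 0 ≤ C ∧ P γ C) :
    ∃ C, 0 ≤ C ∧ ∀ γ ∈ s, P γ C := by
  choose c c0 hc using h
  obtain ⟨C, hC⟩ := (hs.image c).bddAbove
  exact ⟨max C 0, le_max_right _ _, fun γ hγ =>
    mono γ _ _ (le_max_of_le_left (hC (mem_image_of_mem c hγ))) (hc γ)⟩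

/-- One unit step and one change of chart. -/
theorem step (ok : m.OK) (ja : m.Jac) (ha : m.Had lg) (ac : Act m Γ O)
    (h2 : ContDiff ℝ 2 m.om) (a2 : ∀ γ, ContDiff ℝ 2 (act O γ))
    (di : ProperlyDiscontinuousSMul Γ V) (R : ℝ) : ∃ C, 0 ≤ C ∧ ∀ (p q ζ : V × V) (γ γ' : Γ)
    (δ : ℝ), ‖p.2‖ = 1 → ‖γ • p.1‖ ≤ R → ‖γ' • (m.Z 1 p).1‖ ≤ R → δ ≤ R →
    ‖lg (p.1, q.1)‖ ≤ δ → ‖lg ((m.Z 1 p).1, (m.Z 1 q).1)‖ ≤ δ →
    |pr m O γ' (m.Z 1 p) (fderiv ℝ (m.Z 1) p ζ) (m.Z 1 q) - pr m O γ p ζ q| ≤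
      C * δ ^ 2 * (‖m.J p ζ 1‖ + ‖m.J' p ζ 1‖) := by
  obtain ⟨a, a0, hn⟩ := near2 ok ja ha R
  obtain ⟨b, b0, hb⟩ := bdd_ball (z_cd ok 1).continuous (max R 1)
  have fin : {δ : Γ | ((δ • ·) '' closedBall (0 : V) b ∩ closedBall (0 : V) R).Nonempty}.Finite :=
    di.finite_disjoint_inter_image (isCompact_closedBall _ _) (isCompact_closedBall _ _)
  obtain ⟨c, c0, hc⟩ := fin_bound fin (P := fun δ C => ∀ p q : V × V,
      ‖p‖ ≤ max R 1 + a * R → ‖q‖ ≤ max R 1 + a * R →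
      ‖act O δ (m.Z 1 q) - act O δ (m.Z 1 p) -
        fderiv ℝ (act O δ) (m.Z 1 p) (fderiv ℝ (m.Z 1) p (q - p))‖ ≤ C * ‖q - p‖ ^ 2)
    (fun γ C C' h hP p q hp hq => (hP p q hp hq).trans (by gcongr))
    (fun γ => tay_comp ok h2 (a2 γ) _)
  obtain ⟨d, d0, hd⟩ := om0_le ok (max R 1)
  refine ⟨d * (c * a ^ 2), by positivity, fun p q ζ γ γ' δ hp h0 h1 hδ l0 l1 => ?_⟩
  have δ0 : 0 ≤ δ := (norm_nonneg _).trans l0
  set P := act O γ p with hP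
  set Q := act O γ q with hQ
  have P2 : ‖P.2‖ = 1 := by simpa [hP, act] using hp
  have P1 : ‖P‖ ≤ max R 1 := by
    rw [Prod.norm_def]
    exact max_le_max h0 P2.le
  have PQ : ‖Q - P‖ ≤ a * δ := by
    refine hn P Q δ h0 P2 hδ ?_ ?_
    · change ‖lg (γ • p.1, γ • q.1)‖ ≤ δ
      rwa [lg_act ac ha, LinearIsometryEquiv.norm_map]
    · rw [hP, hQ, act_flow ac, act_flow ac]
      change ‖lg (γ • (m.Z 1 p).1, γ • (m.Z 1 q).1)‖ ≤ δ
      rwa [lg_act ac ha, LinearIsometryEquiv.norm_map]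
  have aδ : a * δ ≤ a * R := mul_le_mul_of_nonneg_left hδ a0
  have aδ0 : 0 ≤ a * δ := by positivity
  have Q1 : ‖Q‖ ≤ max R 1 + a * R := by
    have := norm_add_le P (Q - P)
    rw [add_sub_cancel] at this
    linarith
  set e := γ' * γ⁻¹ with he
  have k : ∀ z, act O γ' (m.Z 1 z) = act O e (m.Z 1 (act O γ z)) := fun z => by
    rw [act_flow ac, ← act_mul ac, he, inv_mul_cancel_right]
  have mem : e ∈ {δ : Γ | ((δ • ·) '' closedBall (0 : V) b ∩ closedBall (0 : V) R).Nonempty} := by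
    refine ⟨e • (m.Z 1 P).1, ⟨_, ?_, rfl⟩, ?_⟩
    · simpa using (norm_fst_le _).trans (hb P P1)
    · have := congrArg Prod.fst (k p)
      simp only [act] at this
      rw [mem_closedBall_zero_iff]
      change ‖e • (m.Z 1 (act O γ p)).1‖ ≤ R
      simp only [act]
      rwa [← this]
  have kd : fderiv ℝ (act O γ') (m.Z 1 p) (fderiv ℝ (m.Z 1) p ζ) =
      fderiv ℝ (act O e) (m.Z 1 P) (fderiv ℝ (m.Z 1) P (fderiv ℝ (act O γ) p ζ)) := by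
    have k' : act O γ' ∘ m.Z 1 = act O e ∘ m.Z 1 ∘ act O γ := funext k
    have : fderiv ℝ (act O γ' ∘ m.Z 1) p ζ = fderiv ℝ (act O e ∘ m.Z 1 ∘ act O γ) p ζ := by
      rw [k']
    rw [fderiv_comp p (act_diff ac _ _) (z_diff ok _ _), fderiv_comp p (act_diff ac _ _)
      ((z_diff ok _ _).comp p (act_diff ac _ _)),
      fderiv_comp p (z_diff ok _ _) (act_diff ac _ _)] at this
    exact this
  have e1 : pr m O γ p ζ q = om0 m (act O γ' (m.Z 1 p))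
      (fderiv ℝ (act O γ') (m.Z 1 p) (fderiv ℝ (m.Z 1) p ζ))
      (fderiv ℝ (act O e) (m.Z 1 P) (fderiv ℝ (m.Z 1) P (Q - P))) := by
    rw [kd, k p, om0_act ac, om0_flow ja]
    rfl
  rw [e1, pr, ← om0_sub]
  have n1 : ‖act O γ' (m.Z 1 p)‖ ≤ max R 1 := by
    rw [Prod.norm_def]
    refine max_le_max h1 ?_
    simp only [act, LinearIsometryEquiv.norm_map, ja.norm, hp, le_refl]
  refine (hd _ _ _ n1).trans ?_
  rw [act_hor ac, act_ver ac, LinearIsometryEquiv.norm_map, LinearIsometryEquiv.norm_map, k q, k p]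
  have t1 := hc e mem P Q (by linarith) Q1
  have t2 : ‖Q - P‖ ^ 2 ≤ (a * δ) ^ 2 := by gcongr
  have t3 := t1.trans (mul_le_mul_of_nonneg_left t2 c0)
  calc _ ≤ d * (‖m.J p ζ 1‖ + ‖m.J' p ζ 1‖) * (c * (a * δ) ^ 2) :=
        mul_le_mul_of_nonneg_left t3 (by positivity)
    _ = _ := by ring

end

end Pool.Agent.MP_3ee8cb_gt.DNC0.H38
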