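import Pool.Agent.MP_3ee8cb_gt.DNC0.Spec
import Pool.Agent.MP_3ee8cb_gt.DNC0.H38Step

/-! The core estimate: one step and the telescoped form. -/

namespace Pool.Agent.MP_3ee8cb_gt.DNC0

open DN (Dim dm)

variable [Dim]

open Set Filter Topology Real DN
open scoped RealInnerProductSpace

theorem sq2 : SQ2 := fun _ hf R => H38.tay_ball hf R

theorem stay : STAY := fun _ _ hF hX h0 ode R => H38.tay_flow hF hX h0 ode R

theorem tel_comp {m : MF} (ok : m.OK) (qz : Q2 (m.Z 1)) {A : W → W} (hA : ContDiff ℝ 2 A)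
    (R : ℝ) : ∃ C, 0 ≤ C ∧ ∀ p q : W, ‖p‖ ≤ R → ‖q‖ ≤ R →
      ‖A (m.Z 1 q) - A (m.Z 1 p) - fderiv ℝ A (m.Z 1 p) (fderiv ℝ (m.Z 1) p (q - p))‖ ≤
        C * ‖q - p‖ ^ 2 := by
  obtain ⟨a, a0, ha⟩ := qz R
  obtain ⟨b, b0, hb⟩ := H38.flow_ball ok.cZ R
  obtain ⟨c, c0, hc⟩ := H38.tay_ball hA b
  obtain ⟨d, d0, hd⟩ := H38.bdd_ball (hA.continuous_fderiv (by norm_num)) b
  refine ⟨c * b ^ 2 + d * a, by positivity, fun p q hp hq => ?_⟩
  obtain ⟨e1, e2⟩ := hb 1 (by simp) p hp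
  have e3 := (hb 1 (by simp) q hq).1
  have e : A (m.Z 1 q) - A (m.Z 1 p) - fderiv ℝ A (m.Z 1 p) (fderiv ℝ (m.Z 1) p (q - p)) =
      (A (m.Z 1 q) - A (m.Z 1 p) - fderiv ℝ A (m.Z 1 p) (m.Z 1 q - m.Z 1 p)) +
      fderiv ℝ A (m.Z 1 p) (m.Z 1 q - m.Z 1 p - fderiv ℝ (m.Z 1) p (q - p)) := by
    rw [map_sub (fderiv ℝ A (m.Z 1 p)) (m.Z 1 q - m.Z 1 p)]
    abel
  rw [e]
  have f1 : ‖m.Z 1 q - m.Z 1 p‖ ^ 2 ≤ (b * ‖q - p‖) ^ 2 := by
    have := e2 q hq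
    gcongr
  have f2 := (hc _ _ e1 e3).trans (mul_le_mul_of_nonneg_left f1 c0)
  have f3 := ((fderiv ℝ A (m.Z 1 p)).le_of_opNorm_le (hd _ e1) _).trans
    (mul_le_mul_of_nonneg_left (ha p q hp hq) d0)
  calc _ ≤ _ := (norm_add_le _ _).trans (add_le_add f2 f3)
    _ = _ := by ring

theorem step : SSTEP := by
  intro _ m lg Γ _ _ O a b nw jf R
  obtain ⟨B, B0, hB⟩ := H38.bdd_ball (H38.z_cd nw.ok 1).continuous R
  obtain ⟨c, c0, hc⟩ := H38.fin_bound (nw.fin (max R B)) (P := fun δ C => ∀ p q : W,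
      ‖p‖ ≤ R → ‖q‖ ≤ R → ‖ac O δ (m.Z 1 q) - ac O δ (m.Z 1 p) -
        fderiv ℝ (ac O δ) (m.Z 1 p) (fderiv ℝ (m.Z 1) p (q - p))‖ ≤ C * ‖q - p‖ ^ 2)
    (fun γ C C' h hP p q hp hq => (hP p q hp hq).trans (by gcongr))
    (fun γ => tel_comp nw.ok nw.qz (nw.qa γ) _)
  obtain ⟨d, d0, hd⟩ := jf.omb R
  refine ⟨d * c, by positivity, fun γ z q ξ hz hq hγ => ?_⟩
  have mem : γ ∈ {γ : Γ | ∃ x : V, ‖x‖ ≤ max R B ∧ ‖γ • x‖ ≤ max R B} :=
    ⟨_, le_max_of_le_right ((norm_fst_le _).trans (hB z hz)), le_max_of_le_left hγ⟩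
  have e1 : om m z ξ (q - z) = om m (ac O γ (m.Z 1 z))
      (fderiv ℝ (ac O γ) (m.Z 1 z) (fderiv ℝ (m.Z 1) z ξ))
      (fderiv ℝ (ac O γ) (m.Z 1 z) (fderiv ℝ (m.Z 1) z (q - z))) :=
    ((H38.om0_act nw.act γ _ _ _).trans (H38.om0_flow nw.jac 1 z ξ (q - z))).symm
  have e2 : ∀ z ξ η η' : W, om m z ξ η - om m z ξ η' = om m z ξ (η - η') := fun z ξ η η' =>
    (H38.om0_sub z ξ η η').symm
  have n1 : ‖ac O γ (m.Z 1 z)‖ ≤ R := by
    rw [Prod.norm_def]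
    refine max_le hγ ?_
    simp only [ac, LinearIsometryEquiv.norm_map, nw.jac.norm]
    exact (norm_snd_le z).trans hz
  have e3 : nn m b (ac O γ (m.Z 1 z)) (fderiv ℝ (ac O γ) (m.Z 1 z) (fderiv ℝ (m.Z 1) z ξ)) =
      nn m b (m.Z 1 z) (fderiv ℝ (m.Z 1) z ξ) := by
    have h1 := congrArg norm (nw.act.hor γ (m.Z 1 z) (fderiv ℝ (m.Z 1) z ξ))
    have h2 := congrArg norm (nw.act.ver γ (m.Z 1 z) (fderiv ℝ (m.Z 1) z ξ))
    rw [LinearIsometryEquiv.norm_map] at h1 h2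
    unfold nn
    rw [← h1, ← h2]
    rfl
  rw [e1, e2]
  refine (hd _ _ _ n1).1.trans ?_
  rw [e3]
  have n0 : 0 ≤ nn m b (m.Z 1 z) (fderiv ℝ (m.Z 1) z ξ) := Real.sqrt_nonneg _
  calc _ ≤ d * nn m b (m.Z 1 z) (fderiv ℝ (m.Z 1) z ξ) * (c * ‖q - z‖ ^ 2) :=
        mul_le_mul_of_nonneg_left (hc γ mem z q hz hq) (by positivity)
    _ = _ := by ring

theorem tel : STEL := by
  intro m lg Γ _ _ O a b nw bs jf st mv R A
  obtain ⟨K, hK, hK'⟩ := nw.act.cpt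
  obtain ⟨R₀, hR₀⟩ := hK.isBounded.exists_norm_le
  set R₁ := max R (max R₀ 1) with hR₁
  obtain ⟨R₂, hR₂⟩ := bs.bdd (max R₁ A)
  obtain ⟨c, c0, hc⟩ := st (max R₁ R₂)
  obtain ⟨d, d0, hd⟩ := bs.del (max R₁ R₂)
  set θ := exp (b - 2 * a) with hθ
  have θ1 : 0 < 1 - θ := sub_pos.2 (Real.exp_lt_one_iff.2 (by linarith [nw.b2]))
  set C := c * exp b * (2 * d) ^ 2 / (1 - θ) with hC
  have C0 : 0 ≤ C := by positivity
  have hCθ : C * θ + c * exp b * (2 * d) ^ 2 = C := by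
    rw [hC]
    field_simp
    ring
  have ea : exp (-(a * ((1 : ℕ) : ℝ))) ≤ 1 := Real.exp_le_one_iff.2 (by
    rw [Nat.cast_one]
    linarith [nw.a0])
  refine ⟨C, C0, fun T => ?_⟩
  suffices h : ∀ (z q ξ : W) (ε : ℝ), ‖z‖ ≤ R₁ → 0 ≤ ε → ε ≤ A → Cl m lg a ε T z q →
      |en m T z ξ q - om m z ξ (q - z)| ≤ C * nn m b z ξ * ε ^ 2 from
    fun z q ξ ε hz => h z q ξ ε (le_max_of_le_left hz)
  induction T with
  | zero =>
    intro z q ξ ε _ _ _ cl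
    have h1 := cl.meet
    simp only [Nat.cast_zero, nw.ok.zero] at h1
    have e : q - z = (0, q.2 - z.2) := Prod.ext (by simp [h1]) rfl
    have : en m 0 z ξ q = om m z ξ (q - z) := by
      rw [e]
      simp [en, om, MF.J, nw.ok.zero, H38.z_zero nw.ok, MF.hor, MF.ver, -map_sub]
    rw [this, sub_self, abs_zero]
    have n0 : 0 ≤ nn m b z ξ := Real.sqrt_nonneg _
    positivity
  | succ T ih =>
    intro z q ξ ε hz ε0 εA cl
    obtain ⟨γ, hγ⟩ := hK' (m.Z 1 z).1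
    obtain ⟨m1, -, m3⟩ := mv γ 1 z ξ
    obtain ⟨m4, m5⟩ := m3 q ε T cl
    have hγ' : ‖γ • (m.Z 1 z).1‖ ≤ R₁ := le_max_of_le_right (le_max_of_le_left (hR₀ _ hγ))
    have n1 : ‖ac O γ (m.Z 1 z)‖ ≤ R₁ := by
      rw [Prod.norm_def]
      refine max_le hγ' ?_
      simp only [ac, LinearIsometryEquiv.norm_map, nw.jac.norm, cl.nz]
      exact le_max_of_le_right (le_max_right _ _)
    have l0 : df m lg z q 0 ≤ ε := by simpa using cl.le 0 (Nat.zero_le _)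
    have l1 : df m lg z q 1 ≤ ε := by
      have := (cl.le 1 (Nat.le_add_left 1 T)).trans (mul_le_of_le_one_right ε0 ea)
      rwa [Nat.cast_one] at this
    have hq : ‖q‖ ≤ max R₁ R₂ := by
      rw [Prod.norm_def]
      refine max_le (le_max_of_le_right (hR₂ z.1 q.1
        (le_max_of_le_left ((norm_fst_le z).trans hz)) (le_max_of_le_right ?_))) ?_
      · have := l0.trans εA
        simpa only [df, nw.ok.zero] using this
      · rw [cl.nq]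
        exact le_max_of_le_left (le_max_of_le_right (le_max_right _ _))
    have i1 := ih _ _ (fderiv ℝ (ac O γ) (m.Z (1 : ℕ) z) (fderiv ℝ (m.Z (1 : ℕ)) z ξ)) _
      (by rwa [Nat.cast_one]) (by positivity) ((mul_le_of_le_one_right ε0 ea).trans εA) m4
    rw [m5, m1] at i1
    simp only [Nat.cast_one, mul_one] at i1
    have i2 := hc γ z q ξ (le_max_of_le_left hz) hq (le_max_of_le_left hγ')
    have i3 := jf.grow z ξ 1 cl.nz zero_le_one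
    rw [mul_one] at i3
    have i4 : ‖q - z‖ ≤ 2 * d * ε := by
      have := hd z q (le_max_of_le_left hz) hq
      have h2 := mul_le_mul_of_nonneg_left (add_le_add l0 l1) d0
      linarith
    have i5 : ‖q - z‖ ^ 2 ≤ (2 * d * ε) ^ 2 := by gcongr
    have n0 : 0 ≤ nn m b z ξ := Real.sqrt_nonneg _
    have j1 := i1.trans (mul_le_mul_of_nonneg_right (mul_le_mul_of_nonneg_left i3 C0)
      (sq_nonneg _))
    have j2 := i2.trans (mul_le_mul (mul_le_mul_of_nonneg_left i3 c0) i5 (sq_nonneg _)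
      (by positivity))
    have e : exp b * exp (-a) ^ 2 = θ := by
      rw [hθ, sq, ← Real.exp_add, ← Real.exp_add]
      congr 1
      ring
    calc _ ≤ _ := abs_sub_le _ _ _
      _ ≤ _ := add_le_add j1 j2
      _ = (C * (exp b * exp (-a) ^ 2) + c * exp b * (2 * d) ^ 2) * nn m b z ξ * ε ^ 2 := by ring
      _ = _ := by rw [e, hCθ]

end Pool.Agent.MP_3ee8cb_gt.DNC0
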