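import Pool.Agent.MP_3ee8cb_gt.DNC0.Spec

/-! Row ASQ: asymptotes and the first order term of the derivative. -/

namespace Pool.Agent.MP_3ee8cb_gt.DNC0

open DN (Dim dm)

variable [Dim]

open Set Filter Topology Asymptotics Real DN
open scoped RealInnerProductSpace ContDiff

theorem asq : SASQ := by
  intro m lg Γ _ _ O a b hW β D _ hT hS hD hB z hz
  have hz0 : z.2 ≠ 0 := fun h => by simp [h] at hz
  have hnz : nz z = z := (hD.fix z 0 hz (by simp)).1
  obtain ⟨C1, hC1, hS⟩ := hS 1 zero_le_one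
  obtain ⟨C2, hC2, hT⟩ := hT ‖z‖ C1
  refine ⟨C1 + C2 * C1 ^ 2, by positivity, fun y hy => ?_⟩
  have hd0 : 0 ≤ ‖lg (z.1, y)‖ := norm_nonneg _
  have h2 : ∀ T : ℕ, (1 : ℝ) < ((T + 2 : ℕ) : ℝ) := fun T => by
    push_cast
    linarith [Nat.cast_nonneg (α := ℝ) T]
  have hS' := fun T : ℕ => hS z y (T + 2) hz hy (h2 T)
  let x : ℕ → V := fun T => (nz (y, lg (y, (m.Z ((T + 2 : ℕ) : ℝ) z).1))).2
  have hx : ∀ T, x T ∈ Metric.sphere (0 : V) 1 := fun T => by
    rw [mem_sphere_zero_iff_norm]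
    exact hD.unit _ (hS' T).1
  obtain ⟨n, hn, φ, hφ, hlim⟩ := (isCompact_sphere (0 : V) 1).tendsto_subseq hx
  rw [mem_sphere_zero_iff_norm] at hn
  have hψ : Tendsto (fun k => φ k + 2) atTop atTop :=
    (tendsto_add_atTop_nat 2).comp hφ.tendsto_atTop
  have hb : Tendsto (fun k => bt m lg (φ k + 2) z y) atTop (𝓝 (β z y)) :=
    (hB.lim z y hz0).comp hψ
  have cZ : Continuous fun q : ℝ × V × V => m.Z q.1 q.2 := hW.ok.cZ.continuous
  have hu : Tendsto (fun k => sg m lg (φ k + 2) z y) atTop (𝓝 (m.Z (β z y) (y, n))) := by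
    have h1 : Tendsto (fun k => (bt m lg (φ k + 2) z y, (y, x (φ k)))) atTop
        (𝓝 (β z y, (y, n))) := hb.prodMk_nhds (tendsto_const_nhds.prodMk_nhds hlim)
    refine ((cZ.tendsto _).comp h1).congr fun k => ?_
    simp only [Function.comp_apply, bt, sg, hnz, x]
    rfl
  refine ⟨m.Z (β z y) (y, n), by rw [hW.jac.norm]; exact hn, ?_, fun t ht => ?_, fun ξ hξ => ?_⟩
  · rw [← hW.ok.add, neg_add_cancel, hW.ok.zero]
  · have cl : Continuous lg := hW.had.c1.continuous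
    have cz : Continuous (m.Z t) := cZ.comp (continuous_const.prodMk continuous_id)
    have cd : Continuous fun q : W => df m lg z q t :=
      (cl.comp (continuous_const.prodMk cz.fst)).norm
    have h1 : df m lg z (m.Z (β z y) (y, n)) t ≤ C1 * ‖lg (z.1, y)‖ * exp (-(a * t)) := by
      refine le_of_tendsto ((cd.tendsto _).comp hu) ?_
      have h3 : Tendsto (fun k => ((φ k + 2 : ℕ) : ℝ)) atTop atTop :=
        tendsto_natCast_atTop_atTop.comp hψ
      filter_upwards [h3.eventually_ge_atTop t] with k hk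
      exact (hS' (φ k)).2.2.1 t ⟨ht, hk⟩
    refine h1.trans ?_
    gcongr
    nlinarith [mul_nonneg hC2 (sq_nonneg C1)]
  · have hf := (hD.fix z ξ hz hξ).2
    have hDT : Tendsto (fun k => DT m lg (φ k + 2) z y ξ) atTop (𝓝 (D z y ξ)) :=
      ((ContinuousLinearMap.apply ℝ ℝ ξ).continuous.tendsto _).comp ((hB.dlim z y hz0).comp hψ)
    have co : Continuous fun q : W => om m z ξ (q - z) := by
      unfold om
      fun_prop
    have h1 : Tendsto (fun k => |DT m lg (φ k + 2) z y ξ - ⟪m.hor z ξ, z.2⟫ -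
        om m z ξ (sg m lg (φ k + 2) z y - z)|) atTop
        (𝓝 |D z y ξ - ⟪m.hor z ξ, z.2⟫ - om m z ξ (m.Z (β z y) (y, n) - z)|) :=
      ((hDT.sub_const _).sub ((co.tendsto _).comp hu)).abs
    have hnn : 0 ≤ nn m b z ξ := Real.sqrt_nonneg _
    have h3 : |D z y ξ - ⟪m.hor z ξ, z.2⟫ - om m z ξ (m.Z (β z y) (y, n) - z)| ≤
        C2 * nn m b z ξ * (C1 * ‖lg (z.1, y)‖) ^ 2 := by
      refine le_of_tendsto' h1 fun k => ?_
      have hv := hD.val (φ k + 2) z ξ y hz0 (by rw [hnz]; exact (hS' (φ k)).1)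
      rw [hf, hnz] at hv
      rw [hv, add_sub_cancel_left]
      exact hT _ z _ ξ _ le_rfl (mul_nonneg hC1 hd0) (mul_le_of_le_one_right hC1 hy)
        (hS' (φ k)).2.1
    refine h3.trans ?_
    have h4 : 0 ≤ C1 * nn m b z ξ * ‖lg (z.1, y)‖ ^ 2 := by positivity
    nlinarith

end Pool.Agent.MP_3ee8cb_gt.DNC0
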