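import Pool.Agent.MP_3ee8cb_gt.DNC0.Spec

/-! The approximate Busemann functions converge together with their derivatives. -/

namespace Pool.Agent.MP_3ee8cb_gt.DNC0

open DN (Dim dm)

variable [Dim]

open Set Filter Topology Real DN
open scoped RealInnerProductSpace

theorem bus_cl {m : MF} {lg : W → V} {a ε ε' : ℝ} {T : ℕ} {z q : W} (h : Cl m lg a ε T z q)
    (hε : ε ≤ ε') : Cl m lg a ε' T z q :=
  ⟨h.nz, h.nq, fun j hj => (h.le j hj).trans (mul_le_mul_of_nonneg_right hε (exp_pos _).le),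
    h.meet⟩

theorem bus_small (M c δ : ℝ) (hc : c < 0) (hδ : 0 < δ) :
    ∀ᶠ k : ℕ in atTop, M * exp (c * k) ≤ δ := by
  have h1 : Tendsto (fun k : ℕ => c * (k : ℝ)) atTop atBot :=
    tendsto_natCast_atTop_atTop.const_mul_atTop_of_neg hc
  have h2 : Tendsto (fun k : ℕ => M * exp (c * k)) atTop (𝓝 (M * 0)) :=
    (tendsto_exp_atBot.comp h1).const_mul M
  rw [mul_zero] at h2
  exact h2.eventually (ge_mem_nhds hδ)

theorem cau : SCAU := by
  intro m lg Γ _ _ O a b nw bs jf tel seg der R ε hR hε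
  obtain ⟨A, hA, hAb⟩ := bs.euc R
  obtain ⟨C1, hC1, hs⟩ := seg A hA
  obtain ⟨C2, hC2, ht⟩ := tel (C1 * A) (mul_nonneg hC1 hA)
  obtain ⟨C3, hC3, ho⟩ := jf.omb R
  set M : ℝ := C2 * (C3 * (1 + 2 * R)) with hM
  have hM0 : 0 ≤ M := by positivity
  have hAk : ∀ᶠ k : ℕ in atTop, A ≤ (k : ℝ) := tendsto_natCast_atTop_atTop.eventually_ge_atTop A
  obtain ⟨k, hk1, hk2⟩ := ((bus_small M (b - 2 * a) (ε / 2) (by linarith [nw.b2])
    (by linarith)).and hAk).exists
  obtain ⟨N, hN⟩ := eventually_atTop.1 ((bus_small (M * (exp (b * k) * C1)) (-a) (ε / 2)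
    (by linarith [nw.a0]) (by linarith)).and (eventually_ge_atTop (k + 1)))
  have key : ∀ T T' : ℕ, N ≤ T → T ≤ T' → ∀ (z : W) (y : V), ‖z‖ ≤ R → R⁻¹ ≤ ‖z.2‖ → ‖y‖ ≤ R →
      lg (y, (m.Z T (nz z)).1) ≠ 0 ∧ ‖DT m lg T z y - DT m lg T' z y‖ ≤ ε := by
    intro T T' hT hTT z y hz hz2 hy
    have hR0 : 0 < R := by linarith
    have hzp : 0 < ‖z.2‖ := lt_of_lt_of_le (inv_pos.2 hR0) hz2
    have hz0 : z.2 ≠ 0 := norm_pos_iff.1 hzp
    have hu := der.unit z hz0
    have hz1 : ‖(nz z).1‖ ≤ R := (norm_fst_le z).trans hz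
    have hw : ‖nz z‖ ≤ R := by
      rw [Prod.norm_def]; exact max_le hz1 (by rw [hu]; exact hR)
    have hd : ‖lg ((nz z).1, y)‖ ≤ A := (hAb _ _ hz1 hy).2
    have hkT : k + 1 ≤ T := (hN T hT).2
    have hkT' : ((k : ℝ) + 1) ≤ T := by exact_mod_cast hkT
    have hTT' : (T : ℝ) ≤ T' := by exact_mod_cast hTT
    obtain ⟨n1, c1, -, e1⟩ := hs (nz z) y T hu hd (by linarith)
    obtain ⟨n2, c2, -, -⟩ := hs (nz z) y T' hu hd (by linarith)
    have hle : C1 * ‖lg ((nz z).1, y)‖ ≤ C1 * A := mul_le_mul_of_nonneg_left hd hC1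
    refine ⟨n1, ContinuousLinearMap.opNorm_le_bound _ hε.le fun ξ => ?_⟩
    have h1 := ht k T T' (nz z) _ _ (fderiv ℝ nz z ξ) (C1 * exp (-(a * T))) (by omega) (by omega)
      (bus_cl c1 hle) (bus_cl c2 hle) (e1 T' hTT k ⟨hk2, by linarith⟩)
      (e1 T' hTT (k + 1) ⟨by linarith, hkT'⟩)
    have h2 : nn m b (nz z) (fderiv ℝ nz z ξ) ≤ C3 * (1 + 2 * R) * ‖ξ‖ := by
      refine (ho (nz z) _ 0 hw).2.trans ?_
      rw [mul_assoc]
      refine mul_le_mul_of_nonneg_left ((der.bd z ξ hz0).trans ?_) hC3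
      have : ‖z.2‖⁻¹ ≤ R := inv_le_of_inv_le₀ hR0 hz2
      exact mul_le_mul_of_nonneg_right (by linarith) (norm_nonneg _)
    have h3 := (hN T hT).1
    rw [neg_mul] at h3
    rw [ContinuousLinearMap.sub_apply, der.val T z ξ y hz0 n1, der.val T' z ξ y hz0 n2,
      add_sub_add_left_eq_sub, Real.norm_eq_abs]
    refine h1.trans ?_
    have h4 : 0 ≤ exp ((b - 2 * a) * k) + exp (b * k) * (C1 * exp (-(a * T))) := by positivity
    calc _ ≤ C2 * (C3 * (1 + 2 * R) * ‖ξ‖) *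
          (exp ((b - 2 * a) * k) + exp (b * k) * (C1 * exp (-(a * T)))) :=
          mul_le_mul_of_nonneg_right (mul_le_mul_of_nonneg_left h2 hC2) h4
      _ = (M * exp ((b - 2 * a) * k) + M * (exp (b * k) * C1) * exp (-(a * T))) * ‖ξ‖ := by
          rw [hM]; ring
      _ ≤ ε * ‖ξ‖ := mul_le_mul_of_nonneg_right (by linarith) (norm_nonneg _)
  refine ⟨N, fun T T' hT hT' z y hz hz2 hy => ?_⟩
  rcases le_total T T' with h | h
  · exact key T T' hT h z y hz hz2 hy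
  · refine ⟨(key T T hT le_rfl z y hz hz2 hy).1, ?_⟩
    rw [norm_sub_rev]
    exact (key T' T hT' h z y hz hz2 hy).2

/-- The open sets which exhaust the domain. -/
def busU (R : ℝ) : Set (W × V) := {q | ‖q.1‖ < R ∧ R⁻¹ < ‖q.1.2‖ ∧ ‖q.2‖ < R}

theorem busU_open (R : ℝ) : IsOpen (busU R) :=
  (isOpen_lt continuous_fst.norm continuous_const).inter
    ((isOpen_lt continuous_const continuous_fst.snd.norm).inter
      (isOpen_lt continuous_snd.norm continuous_const))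

theorem busU_mem (q : W × V) (h : q.1.2 ≠ 0) : ∃ R, 1 ≤ R ∧ q ∈ busU R := by
  have hp : 0 < ‖q.1.2‖ := norm_pos_iff.2 h
  have hi : 0 < ‖q.1.2‖⁻¹ := inv_pos.2 hp
  have h1 := norm_nonneg q.1
  have h2 := norm_nonneg q.2
  refine ⟨1 + ‖q.1‖ + ‖q.2‖ + ‖q.1.2‖⁻¹, by linarith, by linarith, ?_, by linarith⟩
  exact inv_lt_of_inv_lt₀ hp (by linarith)

theorem busU_ne {R : ℝ} (hR : 1 ≤ R) {q : W × V} (h : q ∈ busU R) : q.1.2 ≠ 0 :=
  norm_pos_iff.1 ((inv_pos.2 (by linarith)).trans h.2.1)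

theorem bus' : SBUS := by
  intro m lg Γ _ _ O a b nw bs der cau
  have hlim : ∀ (z : W) (y : V), z.2 ≠ 0 →
      Tendsto (fun T : ℕ => bt m lg T z y) atTop (𝓝 (⨅ T : ℕ, bt m lg T z y)) := by
    intro z y hz
    have hu := der.unit z hz
    refine tendsto_atTop_ciInf (antitone_nat_of_succ_le fun T => ?_)
      ⟨-‖lg ((m.Z 0 (nz z)).1, y)‖, ?_⟩
    · have h1 := nw.had.tri y (m.Z T (nz z)).1 (m.Z ((T + 1 : ℕ) : ℝ) (nz z)).1
      have h2 := bs.geo (nz z) T ((T + 1 : ℕ) : ℝ)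
      have h3 : |(T : ℝ) - ((T + 1 : ℕ) : ℝ)| = 1 := by push_cast; simp
      rw [hu, h3] at h2
      simp only [bt]
      have h4 : ((T + 1 : ℕ) : ℝ) = T + 1 := by push_cast; rfl
      linarith
    · rintro _ ⟨T, rfl⟩
      have h1 := nw.had.tri (m.Z 0 (nz z)).1 y (m.Z T (nz z)).1
      have h2 := bs.geo (nz z) 0 T
      rw [hu, zero_sub, abs_neg, Nat.abs_cast] at h2
      simp only [bt]
      linarith
  have hcau : ∀ R, 1 ≤ R →
      UniformCauchySeqOn (fun (T : ℕ) (q : W × V) => DT m lg T q.1 q.2) atTop (busU R) := by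
    intro R hR
    refine Metric.uniformCauchySeqOn_iff.2 fun ε hε => ?_
    obtain ⟨N, hN⟩ := cau R (ε / 2) hR (by linarith)
    refine ⟨N, fun T hT T' hT' q hq => ?_⟩
    rw [dist_eq_norm]
    exact (hN T T' hT hT' q.1 q.2 hq.1.le hq.2.1.le hq.2.2.le).2.trans_lt (by linarith)
  have hdl : ∀ (z : W) (y : V), z.2 ≠ 0 → Tendsto (fun T : ℕ => DT m lg T z y) atTop
      (𝓝 (limUnder atTop fun T : ℕ => DT m lg T z y)) := by
    intro z y hz
    obtain ⟨R, hR, hq⟩ := busU_mem (z, y) hz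
    exact ((hcau R hR).cauchySeq hq).tendsto_limUnder
  have huni : ∀ R, 1 ≤ R → TendstoUniformlyOn (fun (T : ℕ) (q : W × V) => DT m lg T q.1 q.2)
      (fun q => limUnder atTop fun T : ℕ => DT m lg T q.1 q.2) atTop (busU R) := fun R hR =>
    (hcau R hR).tendstoUniformlyOn_of_tendsto fun q hq => hdl q.1 q.2 (busU_ne hR hq)
  have hc1 : ∀ R, 1 ≤ R → ∀ᶠ T : ℕ in atTop, ∀ q ∈ busU R,
      ContDiffAt ℝ 1 (fun q : W × V => bt m lg T q.1 q.2) q := by
    intro R hR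
    obtain ⟨N, hN⟩ := cau R 1 hR one_pos
    filter_upwards [eventually_ge_atTop N] with T hT q hq
    exact der.c1 T q.1 q.2 (busU_ne hR hq)
      (hN T T hT hT q.1 q.2 hq.1.le hq.2.1.le hq.2.2.le).1
  have hpd : ∀ (T : ℕ) (q : W × V), ContDiffAt ℝ 1 (fun q : W × V => bt m lg T q.1 q.2) q →
      HasFDerivAt (fun z => bt m lg T z q.2) ((fderiv ℝ (fun q : W × V => bt m lg T q.1 q.2) q).comp
        (ContinuousLinearMap.inl ℝ W V)) q.1 := fun T q h =>
    HasFDerivAt.comp (f := fun e : W => (e, q.2)) (g := fun q : W × V => bt m lg T q.1 q.2) q.1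
      (h.differentiableAt one_ne_zero).hasFDerivAt (hasFDerivAt_prodMk_left q.1 q.2)
  refine ⟨fun z y => ⨅ T : ℕ, bt m lg T z y,
    fun z y => limUnder atTop fun T : ℕ => DT m lg T z y, hlim, hdl, fun z y hz => ?_, ?_⟩
  · obtain ⟨R, hR, hq⟩ := busU_mem (z, y) hz
    have hn : ∀ᶠ z' in 𝓝 z, (z', y) ∈ busU R :=
      (Continuous.prodMk_left y).continuousAt.eventually ((busU_open R).mem_nhds hq)
    refine hasFDerivAt_of_tendstoUniformlyOnFilter (l := atTop)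
      (f := fun (T : ℕ) z => bt m lg T z y) (f' := fun (T : ℕ) z => DT m lg T z y)
      (g' := fun z => limUnder atTop fun T : ℕ => DT m lg T z y) ?_ ?_ ?_
    · intro u hu
      filter_upwards [((huni R hR) u hu).prod_mk hn] with n hn'
      exact hn'.1 (n.2, y) hn'.2
    · filter_upwards [(hc1 R hR).prod_mk hn] with n hn'
      exact (hpd n.1 (n.2, y) (hn'.1 _ hn'.2)).differentiableAt.hasFDerivAt
    · filter_upwards [hn] with z' hz'
      exact hlim z' y (busU_ne hR hz')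
  · intro q hq
    obtain ⟨R, hR, hq'⟩ := busU_mem q hq
    refine (((huni R hR).continuousOn ((hc1 R hR).mono fun T hT => ?_).frequently).continuousAt
      ((busU_open R).mem_nhds hq')).continuousWithinAt
    have h1 : ContinuousOn (fun q : W × V => (fderiv ℝ (fun q : W × V => bt m lg T q.1 q.2) q).comp
        (ContinuousLinearMap.inl ℝ W V)) (busU R) := fun q hq =>
      (((hT q hq).continuousAt_fderiv one_ne_zero).clm_comp continuousAt_const).continuousWithinAt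
    exact h1.congr fun q hq => (hpd T q (hT q hq)).fderiv

end Pool.Agent.MP_3ee8cb_gt.DNC0
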