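import Pool.Agent.MP_3ee8cb_gt.DNC0.Spec

/-! The offsets are strictly differentiable. -/

namespace Pool.Agent.MP_3ee8cb_gt.DNC0

open DN (Dim dm)

variable [Dim]

open Set Filter Topology Asymptotics Real DN
open CR (Met UT Riem RP dd ng tm MinP bus)

namespace REnv

variable {g : Met dm} {Γ : Type} [Group Γ] [MulAction Γ V] {Φ : ℝ → UT g → UT g} {m : MF}
  {lg : W → V} {β : W → V → ℝ} {D : W → V → W →L[ℝ] ℝ}

theorem small (h : RP g Γ Φ) (x : V) {δ : ℝ} (hδ : 0 < δ) :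
    ∃ ε, 0 < ε ∧ ∀ y, dd g y x ≤ ε → y ∈ Metric.ball x δ := by
  have c : Continuous fun y => dd g x y := h.db.cont.comp (Continuous.prodMk_right x)
  have k : IsCompact ({y | dd g x y ≤ 1} ∩ (Metric.ball x δ)ᶜ) :=
    Metric.isCompact_of_isClosed_isBounded ((isClosed_le c continuous_const).inter
      Metric.isOpen_ball.isClosed_compl) ((h.pro x 1).subset inter_subset_left)
  obtain ⟨a, a0, ha⟩ := k.exists_forall_le' c.continuousOn (a := 0) fun y hy => by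
    obtain ⟨r, r0, hr⟩ := h.low x (1 / 2) (by norm_num)
    refine lt_of_lt_of_le (mul_pos (by norm_num) (lt_min r0 (sqrt_pos.2 ?_)))
      (hr x y (by simpa using r0.le))
    refine h.riem.pos x _ (sub_ne_zero.2 fun e => hy.2 ?_)
    rw [e]
    exact Metric.mem_ball_self hδ
  refine ⟨min (a / 2) 1, lt_min (half_pos a0) one_pos, fun y hy => by_contra fun hn => ?_⟩
  rw [h.db.symm, le_min_iff] at hy
  have := ha y ⟨hy.2, hn⟩
  linarith [hy.1]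

theorem mv (h : Bu m lg β D) {z₀ : W} (hz : z₀.2 ≠ 0) (y₀ : V) {c : ℝ} (hc : 0 < c) :
    ∃ δ, 0 < δ ∧ ∀ y ∈ Metric.ball y₀ δ, ∀ z ∈ Metric.ball z₀ δ, ∀ z' ∈ Metric.ball z₀ δ,
      |β z y - β z' y - D z₀ y₀ (z - z')| ≤ c * ‖z - z'‖ := by
  have o : {q : W × V | q.1.2 ≠ 0} ∈ 𝓝 (z₀, y₀) :=
    (isOpen_ne_fun (by fun_prop) continuous_const).mem_nhds hz
  obtain ⟨δ, δ0, hδ⟩ := Metric.eventually_nhds_iff_ball.1 (Eventually.and o
    ((h.cont.continuousAt o).eventually_mem (Metric.closedBall_mem_nhds _ hc)))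
  refine ⟨δ, δ0, fun y hy z h1 z' h2 => ?_⟩
  have hb : ∀ x ∈ Metric.ball z₀ δ, (x, y) ∈ Metric.ball (z₀, y₀) δ := fun x hx => by
    rw [← ball_prod_same]; exact ⟨hx, hy⟩
  exact (convex_ball z₀ δ).norm_image_sub_le_of_norm_hasFDerivWithin_le' (f := fun z => β z y)
    (fun x hx => (h.der x y (hδ _ (hb x hx)).1).hasFDerivWithinAt)
    (fun x hx => mem_closedBall_iff_norm.1 (hδ _ (hb x hx)).2) h2 h1

theorem fwd (h : RP g Γ Φ) (hN : Near g Φ) (hG : Grv g Φ) (hL : Ln g Φ m lg β)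
    (hB : Bu m lg β D) (u₀ w₀ : UT g) (τ : ℝ) (hA : At g Φ u₀ w₀) :
    SD (fz m) (fun w => Gr g Φ u₀ w) (D (fz m w₀) (Φ τ u₀).1.1) w₀ := by
  refine isLittleO_iff.2 fun c hc => ?_
  obtain ⟨δ, δ0, hδ⟩ := mv hB (z₀ := fz m w₀) (norm_ne_zero_iff.1 (by rw [hL.unit]; simp))
    (Φ τ u₀).1.1 hc
  obtain ⟨ε, ε0, hε⟩ := small h (Φ τ u₀).1.1 δ0
  have e : ∀ᶠ w in 𝓝 w₀, fz m w ∈ Metric.ball (fz m w₀) δ ∧
      (∀ y, Gr g Φ u₀ w ≤ β (fz m w) y + bus g Φ (ng u₀) y) ∧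
      ∃ y ∈ Metric.ball (Φ τ u₀).1.1 δ, β (fz m w) y + bus g Φ (ng u₀) y = Gr g Φ u₀ w := by
    refine (hL.cont.continuousAt.eventually_mem (Metric.ball_mem_nhds _ δ0)).and
      ((hN u₀ w₀ hA τ ε ε0).mono fun w ⟨u, t₀, h1, h2, h3⟩ => ?_)
    obtain ⟨h4, h5, h6⟩ := hG u u₀ w t₀ h1 h2
    simp only [← hL.bus, h4]
    exact ⟨h5, _, hε _ h3, h6 τ⟩
  rw [nhds_prod_eq]
  refine (e.prod_mk e).mono fun q ⟨⟨a1, a2, y, a3, a4⟩, b1, b2, y', b3, b4⟩ => ?_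
  have h1 := abs_le.1 (hδ y a3 _ a1 _ b1)
  have h2 := abs_le.1 (hδ y' b3 _ a1 _ b1)
  have h3 := a2 y'
  have h4 := b2 y
  rw [Real.norm_eq_abs, abs_le]
  constructor <;> linarith [h1.1, h2.2]

theorem ng_ng (p : UT g) : ng (ng p) = p := Subtype.ext (by simp [ng])

end REnv

open REnv in
theorem env : SENV := by
  intro g C Γ _ _ Φ hQ _ m lg β D hN hG hL hB u₀ w₀ τ
  refine ⟨fwd hQ.rp hN hG hL hB u₀ w₀ τ, fun hA => ?_⟩
  have r : ∀ t (p : UT g), (Φ t (ng p)).1.1 = (Φ (-t) p).1.1 := fun t p => by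
    rw [hQ.rp.fl.rev]; rfl
  have hA' : At g Φ (ng u₀) (ng w₀) := by
    simp only [At, r]
    exact hA.comp tendsto_neg_atTop_atBot
  have c : Continuous (ng (g := g)) := Continuous.subtype_mk (by fun_prop) _
  have h1 := (fwd hQ.rp hN hG hL hB _ _ (-τ) hA').comp_tendsto
    ((c.prodMap c).tendsto (w₀, w₀))
  have h2 : ∀ w, Gr g Φ (ng u₀) (ng w) = Gr g Φ w u₀ := fun w => by
    simp only [Gr, ng_ng, add_comm]
  simp only [Function.comp_def, Prod.map_fst, Prod.map_snd, h2, hL.neg, r, neg_neg,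
    ← map_sub] at h1
  exact h1.trans_isBigO (fl.isBigO_comp _ _)

end Pool.Agent.MP_3ee8cb_gt.DNC0
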