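import Pool.Agent.MP_3ee8cb_gt.DNC0.Spec

/-! Stable vectors, and the derivatives of the Busemann functions separate tangent vectors. -/

namespace Pool.Agent.MP_3ee8cb_gt.DNC0

open DN (Dim dm)

variable [Dim]

open Set Filter Topology Asymptotics Real DN
open scoped RealInnerProductSpace

noncomputable section

namespace RStab

theorem om_smul (m : MF) (z ξ η : W) (c : ℝ) : om m z ξ (c • η) = c * om m z ξ η := by
  simp only [om, map_smul, inner_smul_right]
  ring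

theorem om_cont (m : MF) (z ξ : W) : Continuous (om m z ξ) :=
  (continuous_const.inner (m.ver z).continuous).sub (continuous_const.inner (m.hor z).continuous)

theorem df_nonneg (m : MF) (lg : W → V) (p q : W) (t : ℝ) : 0 ≤ df m lg p q t := norm_nonneg _

end RStab

open RStab in
theorem stab : SSTAB := by
  intro m lg Γ _ _ O a b nw β D bs jf asq flat z hz
  have hm := nw.ok
  obtain ⟨C, C0, hC⟩ := asq z hz
  have c1 : ∀ ξ : W, ⟪ξ.2, z.2⟫ = 0 → Ker lg D z ξ → ⟪m.hor z ξ, z.2⟫ = 0 := fun ξ h1 h2 => by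
    have h0 : ‖lg (z.1, z.1)‖ = 0 := by rw [bs.self, norm_zero]
    obtain ⟨u, -, -, h3, h4⟩ := hC z.1 (h0.le.trans zero_le_one)
    obtain ⟨K, K0, hK⟩ := bs.del (max ‖z‖ ‖u‖)
    have h5 := hK z u (le_max_left _ _) (le_max_right _ _)
    have h6 := h3 0 le_rfl
    have h7 := h3 1 zero_le_one
    have h8 := h4 ξ h1
    rw [h0, mul_zero, zero_mul] at h6 h7
    have h9 : u - z = (0 : ℝ) • (0 : W) := by
      rw [smul_zero]
      exact norm_le_zero_iff.1 (h5.trans (mul_nonpos_of_nonneg_of_nonpos K0 (by linarith)))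
    rw [h9, om_smul, h0, h2 z.1 (h0.le.trans zero_le_one)] at h8
    simpa using h8
  refine ⟨c1, fun e he => ?_⟩
  by_cases e0 : e = 0
  · exact ⟨(0 : ℝ) • 0, by simp [e0], fun h => absurd e0 h, fun ξ _ _ => by
      rw [om_smul, zero_mul]⟩
  have ep : 0 < ‖e‖ := norm_pos_iff.2 e0
  obtain ⟨y, hy⟩ : ∃ y : ℝ → V, y = fun s => (m.Z s (z.1, e)).1 := ⟨_, rfl⟩
  have dy : ∀ s, 0 < s → ‖lg (z.1, y s)‖ = s * ‖e‖ := fun s hs => by
    have := bs.geo (z.1, e) 0 s
    rwa [hm.zero, zero_sub, abs_neg, abs_of_pos hs, ← congrFun hy s] at this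
  have ex : ∀ s, ∃ u : W, ‖lg (z.1, y s)‖ ≤ 1 → ‖u.2‖ = 1 ∧ (m.Z (-β z (y s)) u).1 = y s ∧
      (∀ t : ℝ, 0 ≤ t → df m lg z u t ≤ C * ‖lg (z.1, y s)‖ * exp (-(a * t))) ∧
      ∀ ξ : W, ⟪ξ.2, z.2⟫ = 0 → |D z (y s) ξ - ⟪m.hor z ξ, z.2⟫ - om m z ξ (u - z)| ≤
        C * nn m b z ξ * ‖lg (z.1, y s)‖ ^ 2 := fun s => by
    by_cases h : ‖lg (z.1, y s)‖ ≤ 1
    · exact (hC _ h).imp fun u hu _ => hu
    · exact ⟨z, fun h' => absurd h' h⟩
  choose u hu using ex
  have ev : ∀ᶠ s in 𝓝[>] (0 : ℝ), 0 < s ∧ ‖lg (z.1, y s)‖ ≤ 1 := by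
    filter_upwards [Ioc_mem_nhdsGT (inv_pos.2 ep)] with s hs
    exact ⟨hs.1, by rw [dy s hs.1]; exact (le_div_iff₀ ep).1 (by simpa using hs.2)⟩
  obtain ⟨R, hR⟩ := bs.bdd (max ‖z‖ (max C 1))
  have zR : ‖z.1‖ ≤ max ‖z‖ (max C 1) := (norm_fst_le z).trans (le_max_left _ _)
  have dd : ∀ s, 0 < s → ‖lg (z.1, y s)‖ ≤ 1 → ∀ t, 0 ≤ t →
      df m lg z (u s) t ≤ C * (s * ‖e‖) := fun s hs h t ht => by
    refine ((hu s h).2.2.1 t ht).trans ?_
    rw [dy s hs]
    exact mul_le_of_le_one_right (by positivity)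
      (exp_le_one_iff.2 (neg_nonpos.2 (mul_nonneg nw.a0.le ht)))
  have uR : ∀ s, 0 < s → ‖lg (z.1, y s)‖ ≤ 1 → ‖(u s).1‖ ≤ R := fun s hs h => by
    have h1 := dd s hs h 0 le_rfl
    rw [df, hm.zero, hm.zero, ← dy s hs] at h1
    exact hR _ _ zR (h1.trans ((mul_le_of_le_one_right C0 h).trans
      ((le_max_left _ _).trans (le_max_right _ _))))
  obtain ⟨K, K0, hK⟩ := bs.del (max ‖z‖ (max R 1))
  obtain ⟨η, hη⟩ : ∃ η : ℝ → W, η = fun s => s⁻¹ • (u s - z) := ⟨_, rfl⟩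
  have bd : ∀ᶠ s in 𝓝[>] (0 : ℝ), η s ∈ Metric.closedBall (0 : W) (2 * K * C * ‖e‖) := by
    filter_upwards [ev] with s ⟨hs, h⟩
    have h1 := hK z (u s) (le_max_left _ _) (le_max_of_le_right
      (max_le_max (uR s hs h) (hu s h).1.le))
    have h2 := mul_le_mul_of_nonneg_left (add_le_add (dd s hs h 0 le_rfl)
      (dd s hs h 1 zero_le_one)) K0
    rw [mem_closedBall_zero_iff, hη, norm_smul, norm_inv, Real.norm_eq_abs, abs_of_pos hs,
      inv_mul_le_iff₀ hs]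
    linarith
  let U := Ultrafilter.of (𝓝[>] (0 : ℝ))
  have hU : (U : Filter ℝ) ≤ 𝓝[>] 0 := Ultrafilter.of_le _
  obtain ⟨ζ, -, hζ⟩ := (isCompact_closedBall (0 : W) (2 * K * C * ‖e‖)).ultrafilter_le_nhds
    (U.map η) (le_principal_iff.2 (hU bd))
  replace hζ : Tendsto η U (𝓝 ζ) := hζ
  have s0 : Tendsto (fun s : ℝ => s) (𝓝[>] 0) (𝓝 0) := tendsto_nhdsWithin_of_tendsto_nhds tendsto_id
  have h1 : m.hor z ζ = e := by
    obtain ⟨E, E0, hE⟩ := bs.euc R
    have a1 : Tendsto (fun s => s⁻¹ • (y s - z.1)) (𝓝[>] 0) (𝓝 (m.R z.1 e)) := by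
      have := ((ContinuousLinearMap.fst ℝ V V).hasFDerivAt.comp_hasDerivAt _
        (hm.ode (z.1, e) 0)).tendsto_slope_zero_right
      simpa [hm.zero, MF.vf, hy] using this
    have a2 : Tendsto (fun s => s⁻¹ • ((u s).1 - y s)) (𝓝[>] 0) (𝓝 0) := by
      have b1 := ((flat z e hz he).tendsto_div_nhds_zero.mono_left
        (nhdsWithin_le_nhds (s := Ioi 0))).abs.const_mul E
      rw [abs_zero, mul_zero] at b1
      refine squeeze_zero_norm' ?_ b1
      filter_upwards [ev] with s ⟨hs, h⟩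
      have b2 := bs.geo (u s) (-β z (y s)) 0
      rw [(hu s h).2.1, hm.zero, (hu s h).1, sub_zero, abs_neg, mul_one] at b2
      have b3 := (hE _ _ (hR _ _ zR (h.trans ((le_max_right _ _).trans (le_max_right _ _))))
        (uR s hs h)).1
      rw [norm_smul, norm_inv, Real.norm_eq_abs, abs_div, ← congrFun hy s, ← b2, ← mul_div_assoc,
        inv_mul_eq_div]
      exact div_le_div_of_nonneg_right b3 (abs_nonneg _)
    have a3 := ((m.S z.1).continuous.tendsto _).comp ((a2.add a1).mono_left hU)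
    rw [zero_add, hm.SR] at a3
    refine tendsto_nhds_unique (((m.hor z).continuous.tendsto _).comp hζ) (a3.congr fun s => ?_)
    simp only [Function.comp, hη, ← smul_add, sub_add_sub_cancel]
    rfl
  refine ⟨ζ, h1, fun _ => ?_, fun ξ h2 h3 => ?_⟩
  · obtain ⟨T, T0, hT⟩ : ∃ T : ℝ, 0 ≤ T ∧ 2 * C * exp (-(a * T)) < 1 := by
      have := (tendsto_exp_neg_atTop_nhds_zero.comp
        (tendsto_id.const_mul_atTop nw.a0)).const_mul (2 * C)
      rw [mul_zero] at this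
      exact ((eventually_ge_atTop 0).and (this.eventually (gt_mem_nhds one_pos))).exists
    have dZ := ((hm.cZ.comp (contDiff_const.prodMk contDiff_id) :
      ContDiff ℝ 1 (m.Z T)).differentiable one_ne_zero z).hasFDerivAt
    have a0 : Tendsto (fun s => u s - z) U (𝓝 0) := by
      have := (s0.mono_left hU).smul hζ
      rw [zero_smul] at this
      refine this.congr' ?_
      filter_upwards [hU ev] with s hs
      rw [hη, smul_smul, mul_inv_cancel₀ hs.1.ne', one_smul]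
    have a1 := dZ.hasFDerivWithinAt.lim (s := univ) (c := fun s : ℝ => s⁻¹) (d := fun s => u s - z)
      a0 (Eventually.of_forall fun _ => mem_univ _) (hη ▸ hζ)
    have a2 := (((m.hor (m.Z T z)).continuous.tendsto _).comp a1).norm
    have a3 : Tendsto (fun s => (m.Z T (u s)).1) U (𝓝 (m.Z T z).1) := by
      have b1 := a0.add_const z
      simp only [sub_add_cancel, zero_add] at b1
      exact (continuous_fst.tendsto _).comp (dZ.continuousAt.tendsto.comp b1)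
    have a4 : ‖m.J z ζ T‖ ≤ 2 * C * exp (-(a * T)) * ‖e‖ := le_of_tendsto a2 (by
      filter_upwards [hU ev, a3.eventually (bs.loc (m.Z T z).1 1 one_pos)] with s ⟨hs, h⟩ h4
      have b1 := (hu s h).2.2.1 T T0
      rw [dy s hs, df] at b1
      rw [Function.comp, map_smul, norm_smul, norm_inv, Real.norm_eq_abs, abs_of_pos hs,
        inv_mul_le_iff₀ hs, add_sub_cancel]
      refine le_trans h4 ?_
      linarith)
    rw [← h1]
    exact jf.cvx z ζ T T0 (a4.trans_lt (by rw [h1]; exact mul_lt_of_lt_one_left ep hT))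
  · refine tendsto_nhds_unique (((om_cont m z ξ).tendsto _).comp hζ) (Tendsto.mono_left ?_ hU)
    have b1 := s0.const_mul (C * nn m b z ξ * ‖e‖ ^ 2)
    rw [mul_zero] at b1
    refine squeeze_zero_norm' ?_ b1
    filter_upwards [ev] with s ⟨hs, h⟩
    have b2 := (hu s h).2.2.2 ξ h2
    rw [h3 _ h, c1 ξ h2 h3, sub_zero, zero_sub, abs_neg, dy s hs] at b2
    rw [Function.comp, hη, om_smul, norm_mul, norm_inv, Real.norm_eq_abs, abs_of_pos hs,
      inv_mul_le_iff₀ hs, Real.norm_eq_abs]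
    linarith

theorem imm : SIMM := by
  intro m lg Γ _ _ O a b nw D jf st z ξ hz h0 k1 k2
  have e1 : m.hor (fl z) (fl ξ) = m.hor z ξ := rfl
  have e2 : m.ver (fl z) (fl ξ) = -m.ver z ξ := by
    simp [MF.ver, fl]
    abel
  have e3 : (fl z).2 = -z.2 := rfl
  have h0' : ⟪(fl ξ).2, (fl z).2⟫ = 0 := by simpa [fl] using h0
  obtain ⟨s1, s2⟩ := st z hz
  obtain ⟨-, s3⟩ := st (fl z) (by rw [e3, norm_neg, hz])
  have h1 := s1 ξ h0 k1
  have h2 : m.hor z ξ = 0 := by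
    by_contra hn
    obtain ⟨η, a1, a2, a3⟩ := s2 _ h1
    obtain ⟨η', b1, b2, b3⟩ := s3 (m.hor z ξ) (by rw [e3, inner_neg_right, h1, neg_zero])
    have a4 := a3 ξ h0 k1
    have b4 := b3 _ h0' k2
    rw [om, a1, real_inner_comm] at a4
    rw [om, b1, e1, e2, inner_neg_left, real_inner_comm] at b4
    linarith [a2 hn, b2 hn]
  obtain ⟨η, a1, -, a3⟩ := s2 (m.ver z ξ) ((jf.tan z ξ).trans h0)
  have a4 := a3 ξ h0 k1
  rw [om, a1, h2, inner_zero_left, zero_sub, neg_eq_zero, inner_self_eq_zero] at a4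
  have h3 : ξ.1 = 0 := by
    rw [← nw.ok.RS z.1 ξ.1]
    exact (congrArg (m.R z.1) h2).trans (map_zero _)
  refine Prod.ext h3 ?_
  simpa [MF.ver, h3] using a4

end

end Pool.Agent.MP_3ee8cb_gt.DNC0
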