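import Pool.Agent.MP_3ee8cb_gt.DNC0.Top
import Pool.Agent.MP_3ee8cb_gt.DNC0.RAsq
import Pool.Agent.MP_3ee8cb_gt.DNC0.RBr
import Pool.Agent.MP_3ee8cb_gt.DNC0.RBs
import Pool.Agent.MP_3ee8cb_gt.DNC0.RBus
import Pool.Agent.MP_3ee8cb_gt.DNC0.RDer
import Pool.Agent.MP_3ee8cb_gt.DNC0.REnv
import Pool.Agent.MP_3ee8cb_gt.DNC0.RFin
import Pool.Agent.MP_3ee8cb_gt.DNC0.RInv
import Pool.Agent.MP_3ee8cb_gt.DNC0.RJf
import Pool.Agent.MP_3ee8cb_gt.DNC0.RLeft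
import Pool.Agent.MP_3ee8cb_gt.DNC0.RMov
import Pool.Agent.MP_3ee8cb_gt.DNC0.RNear
import Pool.Agent.MP_3ee8cb_gt.DNC0.RSeg
import Pool.Agent.MP_3ee8cb_gt.DNC0.RStab
import Pool.Agent.MP_3ee8cb_gt.DNC0.RTel
import Pool.Agent.MP_3ee8cb_gt.DNJC.Out
import Pool.Agent.MP_3ee8cb_gt.DNFL.HHAD
import Pool.Agent.MP_3ee8cb_gt.DNAC.Act

/-! Under quarter pinching a conjugacy is of class `C¹`: all rows together. -/

namespace Pool.Agent.MP_3ee8cb_gt.DNC0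

open DN (Dim dm)

variable [Dim]

theorem rowsW : RowsW :=
  ⟨sq2, bs, jf, step, mov, tel, tel2, seg, der, cau, bus', asq, flat, stab, imm⟩

theorem rowsM : RowsM :=
  ⟨DN.sJAC, DNFL.had, DN.sACT, stay, left, str, near, inv, pk, frm3, br, ln, env, sep, asp, fin,
    core⟩

theorem partB (a : ℝ) (ha : 0 < a) : DNIN.PartB a := partB_of rowsW rowsM a ha

end Pool.Agent.MP_3ee8cb_gt.DNC0
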