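import Pool.Agent.MP_3ee8cb_gt.DN.Spec
import Pool.Agent.MP_3ee8cb_gt.DNIN.Spec

/-! Under quarter pinching a conjugacy is of class `C¹`: definitions and statements of the rows. -/

namespace Pool.Agent.MP_3ee8cb_gt.DNC0

open DN (Dim dm)

variable [Dim]

open Set Filter Topology Asymptotics Real DN
open CR (Met UT Riem RP dd ng tm MinP bus)
open LV (QP CJ BP TP ThP Lp1P OnMan)
open scoped RealInnerProductSpace ContDiff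

noncomputable section

abbrev W := V × V

/-! ### Abstract rows -/

/-- Quadratic Taylor remainder on bounded sets. -/
def Q2 (f : W → W) : Prop := ∀ R : ℝ, ∃ C : ℝ, 0 ≤ C ∧ ∀ p q : W, ‖p‖ ≤ R → ‖q‖ ≤ R →
  ‖f q - f p - fderiv ℝ f p (q - p)‖ ≤ C * ‖q - p‖ ^ 2

/-- `θ` is strictly differentiable with respect to `x` at `p₀`. -/
def SD {P X Y : Type} [TopologicalSpace P] [NormedAddCommGroup X] [NormedSpace ℝ X]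
    [NormedAddCommGroup Y] [NormedSpace ℝ Y] (x : P → X) (θ : P → Y) (A : X →L[ℝ] Y) (p₀ : P) :
    Prop :=
  (fun q : P × P => θ q.1 - θ q.2 - A (x q.1 - x q.2)) =o[𝓝 (p₀, p₀)] fun q => x q.1 - x q.2

def SQ2 : Prop := ∀ f : W → W, ContDiff ℝ 2 f → Q2 f

def STAY : Prop := ∀ (F : W → W) (X : ℝ → W → W), ContDiff ℝ 2 F →
  (ContDiff ℝ 1 fun q : ℝ × W => X q.1 q.2) → (∀ z, X 0 z = z) →
  (∀ z t, HasDerivAt (fun s => X s z) (F (X t z)) t) → Q2 (X 1)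

def SLEFT : Prop := ∀ (P ι : Type) [TopologicalSpace P] (x y : P → W) (p₀ : P) (θ : ι → P → ℝ)
  (A B : ι → W →L[ℝ] ℝ), (∀ i, SD x (θ i) (A i) p₀) → (∀ i, SD y (θ i) (B i) p₀) →
  (∀ η, (∀ i, B i η = 0) → η = 0) → ∃ L, SD x y L p₀

def SSTR : Prop := ∀ (f : W → W) (U : Set W), IsOpen U →
  (∀ z ∈ U, ∃ L, HasStrictFDerivAt (𝕜 := ℝ) f L z) → ContDiffOn ℝ 1 f U

/-! ### The world of frames -/

/-- The symplectic form. -/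
def om (m : MF) (z ξ η : W) : ℝ := ⟪m.hor z ξ, m.ver z η⟫ - ⟪m.ver z ξ, m.hor z η⟫

/-- The energy norm. -/
def nn (m : MF) (b : ℝ) (z ξ : W) : ℝ := √(b ^ 2 * ‖m.hor z ξ‖ ^ 2 + ‖m.ver z ξ‖ ^ 2)

/-- The distance of two geodesics at time `t`. -/
def df (m : MF) (lg : W → V) (p q : W) (t : ℝ) : ℝ := ‖lg ((m.Z t p).1, (m.Z t q).1)‖

/-- The action on vectors. -/
def ac {Γ : Type} [Group Γ] [MulAction Γ V] (O : Γ → V → V ≃ₗᵢ[ℝ] V) (γ : Γ) (z : W) : W :=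
  (γ • z.1, O γ z.1 z.2)

/-- The flip. -/
def fl : W →L[ℝ] W := (ContinuousLinearMap.fst ℝ V V).prod (-ContinuousLinearMap.snd ℝ V V)

/-- The direction. -/
def nz (z : W) : W := (z.1, ‖z.2‖⁻¹ • z.2)

/-- A quarter pinched space with a cocompact group. -/
structure NW (m : MF) (lg : W → V) (Γ : Type) [Group Γ] [MulAction Γ V]
    (O : Γ → V → V ≃ₗᵢ[ℝ] V) (a b : ℝ) : Prop where
  ok : m.OK
  jac : m.Jac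
  had : m.Had lg
  act : Act m Γ O
  a0 : 0 < a
  ab : a ≤ b
  b2 : b < 2 * a
  up : m.Up 0
  dn : m.Dn (b ^ 2)
  th : ∀ y u u' : V, ‖u‖ = 1 → ‖u'‖ = 1 → ∀ R T : ℝ, 0 ≤ T → T ≤ R →
    cosh (a * df m lg (y, u) (y, u') (R - T)) ≤
      1 + exp (-(2 * a * T)) * (cosh (a * df m lg (y, u) (y, u') R) - 1)
  fin : ∀ R : ℝ, {γ : Γ | ∃ x : V, ‖x‖ ≤ R ∧ ‖γ • x‖ ≤ R}.Finite
  qz : Q2 (m.Z 1)
  qa : ∀ γ, ContDiff ℝ 2 (ac O γ)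

/-- A statement about such a space. -/
def OnW (P : ∀ (_ : MF) (_ : W → V) (Γ : Type) [Group Γ] [MulAction Γ V]
    (_ : Γ → V → V ≃ₗᵢ[ℝ] V) (_ _ : ℝ), Prop) : Prop :=
  ∀ (m : MF) (lg : W → V) (Γ : Type) [Group Γ] [MulAction Γ V] (O : Γ → V → V ≃ₗᵢ[ℝ] V)
    (a b : ℝ), NW m lg Γ O a b → P m lg Γ O a b

/-- Basic facts on the distance. -/
structure Bs (m : MF) (lg : W → V) (Γ : Type) [Group Γ] [MulAction Γ V] : Prop where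
  eqv : ∀ (γ : Γ) (x y : V), ‖lg (γ • x, γ • y)‖ = ‖lg (x, y)‖
  symm : ∀ x y, ‖lg (x, y)‖ = ‖lg (y, x)‖
  self : ∀ x, lg (x, x) = 0
  geo : ∀ (z : W) (s t : ℝ), ‖lg ((m.Z s z).1, (m.Z t z).1)‖ = |s - t| * ‖z.2‖
  flip : ∀ (t : ℝ) (z : W), m.Z t (fl z) = fl (m.Z (-t) z)
  bdd : ∀ R : ℝ, ∃ R' : ℝ, ∀ x y : V, ‖x‖ ≤ R → ‖lg (x, y)‖ ≤ R → ‖y‖ ≤ R'
  euc : ∀ R : ℝ, ∃ C : ℝ, 0 ≤ C ∧ ∀ x y : V, ‖x‖ ≤ R → ‖y‖ ≤ R →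
    ‖y - x‖ ≤ C * ‖lg (x, y)‖ ∧ ‖lg (x, y)‖ ≤ C
  del : ∀ R : ℝ, ∃ C : ℝ, 0 ≤ C ∧ ∀ p q : W, ‖p‖ ≤ R → ‖q‖ ≤ R →
    ‖q - p‖ ≤ C * (df m lg p q 0 + df m lg p q 1)
  loc : ∀ (x : V) (δ : ℝ), 0 < δ → ∀ᶠ y in 𝓝 x, ‖m.S x (y - x)‖ ≤ (1 + δ) * ‖lg (x, y)‖

/-- Facts on Jacobi fields and norms. -/
structure Jf (m : MF) (lg : W → V) (a b : ℝ) : Prop where
  grow : ∀ (z ξ : W) (t : ℝ), ‖z.2‖ = 1 → 0 ≤ t →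
    nn m b (m.Z t z) (fderiv ℝ (m.Z t) z ξ) ≤ exp (b * t) * nn m b z ξ
  al : ∀ (z ξ : W) (t : ℝ), ⟪m.ver z ξ, z.2⟫ = 0 → ⟪m.J z ξ t, (m.Z t z).2⟫ = ⟪m.hor z ξ, z.2⟫
  cvx : ∀ (z η : W) (t : ℝ), 0 ≤ t → ‖m.J z η t‖ < ‖m.hor z η‖ → ⟪m.ver z η, m.hor z η⟫ < 0
  tan : ∀ z ξ : W, ⟪m.ver z ξ, z.2⟫ = ⟪ξ.2, z.2⟫
  omb : ∀ R : ℝ, ∃ C : ℝ, 0 ≤ C ∧ ∀ z ξ η : W, ‖z‖ ≤ R →
    |om m z ξ η| ≤ C * nn m b z ξ * ‖η‖ ∧ nn m b z ξ ≤ C * ‖ξ‖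
  thin : ∀ A : ℝ, ∃ C : ℝ, 1 ≤ C ∧ ∀ y u u' : V, ‖u‖ = 1 → ‖u'‖ = 1 → ∀ R T : ℝ, 0 ≤ T → T ≤ R →
    df m lg (y, u) (y, u') R ≤ A →
      df m lg (y, u) (y, u') (R - T) ≤ C * exp (-(a * T)) * df m lg (y, u) (y, u') R

def SBS : Prop := OnW fun m lg Γ _ _ _ _ _ => Bs m lg Γ
def SJF : Prop := OnW fun m lg _ _ _ _ a b => Jf m lg a b

/-- Two unit geodesics approach each other and meet at time `T`. -/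
structure Cl (m : MF) (lg : W → V) (a ε : ℝ) (T : ℕ) (z q : W) : Prop where
  nz : ‖z.2‖ = 1
  nq : ‖q.2‖ = 1
  le : ∀ j : ℕ, j ≤ T → df m lg z q j ≤ ε * exp (-(a * j))
  meet : (m.Z T z).1 = (m.Z T q).1

/-- The pairing at the meeting point. -/
def en (m : MF) (T : ℕ) (z ξ q : W) : ℝ := ⟪m.J z ξ T, (m.Z T q).2 - (m.Z T z).2⟫

/-- One step. -/
def Step (m : MF) {Γ : Type} [Group Γ] [MulAction Γ V] (O : Γ → V → V ≃ₗᵢ[ℝ] V) (b : ℝ) : Prop :=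
  ∀ R : ℝ, ∃ C : ℝ, 0 ≤ C ∧ ∀ (γ : Γ) (z q ξ : W), ‖z‖ ≤ R → ‖q‖ ≤ R → ‖γ • (m.Z 1 z).1‖ ≤ R →
    |om m (ac O γ (m.Z 1 z)) (fderiv ℝ (ac O γ) (m.Z 1 z) (fderiv ℝ (m.Z 1) z ξ))
        (ac O γ (m.Z 1 q) - ac O γ (m.Z 1 z)) - om m z ξ (q - z)| ≤
      C * nn m b (m.Z 1 z) (fderiv ℝ (m.Z 1) z ξ) * ‖q - z‖ ^ 2

/-- Moving the data by the flow and the group. -/
def Mov (m : MF) (lg : W → V) {Γ : Type} [Group Γ] [MulAction Γ V] (O : Γ → V → V ≃ₗᵢ[ℝ] V)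
    (a b : ℝ) : Prop := ∀ (γ : Γ) (k : ℕ) (z ξ : W),
  nn m b (ac O γ (m.Z k z)) (fderiv ℝ (ac O γ) (m.Z k z) (fderiv ℝ (m.Z k) z ξ)) =
      nn m b (m.Z k z) (fderiv ℝ (m.Z k) z ξ) ∧
    (∀ (q : W) (t : ℝ), df m lg (ac O γ (m.Z k z)) (ac O γ (m.Z k q)) t = df m lg z q (t + k)) ∧
    ∀ (q : W) (ε : ℝ) (T : ℕ), Cl m lg a ε (T + k) z q →
      Cl m lg a (ε * exp (-(a * k))) T (ac O γ (m.Z k z)) (ac O γ (m.Z k q)) ∧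
      en m T (ac O γ (m.Z k z)) (fderiv ℝ (ac O γ) (m.Z k z) (fderiv ℝ (m.Z k) z ξ))
        (ac O γ (m.Z k q)) = en m (T + k) z ξ q

/-- The core estimate. -/
def Tel (m : MF) (lg : W → V) (a b : ℝ) : Prop := ∀ R A : ℝ, ∃ C : ℝ, 0 ≤ C ∧
  ∀ (T : ℕ) (z q ξ : W) (ε : ℝ), ‖z‖ ≤ R → 0 ≤ ε → ε ≤ A → Cl m lg a ε T z q →
    |en m T z ξ q - om m z ξ (q - z)| ≤ C * nn m b z ξ * ε ^ 2

/-- Its Cauchy form. -/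
def Tel2 (m : MF) (lg : W → V) (a b : ℝ) : Prop := ∀ A : ℝ, 0 ≤ A → ∃ C : ℝ, 0 ≤ C ∧
  ∀ (k T T' : ℕ) (z q q' ξ : W) (η : ℝ), k ≤ T → k ≤ T' → Cl m lg a A T z q →
    Cl m lg a A T' z q' → df m lg q q' k ≤ η → df m lg q q' (k + 1) ≤ η →
      |en m T z ξ q - en m T' z ξ q'| ≤
        C * nn m b z ξ * (exp ((b - 2 * a) * k) + exp (b * k) * η)

def SSTEP : Prop := SQ2 → OnW fun m lg _ _ _ O a b => Jf m lg a b → Step m O b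
def SMOV : Prop := OnW fun m lg Γ _ _ O a b => Bs m lg Γ → Mov m lg O a b
def STEL : Prop := OnW fun m lg Γ _ _ O a b => Bs m lg Γ → Jf m lg a b → Step m O b →
  Mov m lg O a b → Tel m lg a b
def STEL2 : Prop := OnW fun m lg Γ _ _ O a b => Bs m lg Γ → Jf m lg a b → Mov m lg O a b →
  Tel m lg a b → Tel2 m lg a b

/-- The segment from `y` to the point at time `T` of the geodesic `z`, synchronised at `T`. -/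
def sg (m : MF) (lg : W → V) (T : ℕ) (z : W) (y : V) : W :=
  m.Z (‖lg (y, (m.Z T z).1)‖ - T) (nz (y, lg (y, (m.Z T z).1)))

def Seg (m : MF) (lg : W → V) (a : ℝ) : Prop := ∀ A : ℝ, 0 ≤ A → ∃ C : ℝ, 0 ≤ C ∧
  ∀ (z : W) (y : V) (T : ℕ), ‖z.2‖ = 1 → ‖lg (z.1, y)‖ ≤ A → A < T →
    lg (y, (m.Z T z).1) ≠ 0 ∧ Cl m lg a (C * ‖lg (z.1, y)‖) T z (sg m lg T z y) ∧
    (∀ t ∈ Icc (0 : ℝ) T, df m lg z (sg m lg T z y) t ≤ C * ‖lg (z.1, y)‖ * exp (-(a * t))) ∧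
    ∀ T' : ℕ, T ≤ T' → ∀ t ∈ Icc A T,
      df m lg (sg m lg T z y) (sg m lg T' z y) t ≤ C * exp (-(a * T))

def SSEG : Prop := OnW fun m lg Γ _ _ _ a b => Bs m lg Γ → Jf m lg a b → Seg m lg a

/-- The approximate Busemann function. -/
def bt (m : MF) (lg : W → V) (T : ℕ) (z : W) (y : V) : ℝ := ‖lg (y, (m.Z T (nz z)).1)‖ - T

/-- Its derivative with respect to the geodesic. -/
def DT (m : MF) (lg : W → V) (T : ℕ) (z : W) (y : V) : W →L[ℝ] ℝ :=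
  fderiv ℝ (fun z => bt m lg T z y) z

structure Der (m : MF) (lg : W → V) : Prop where
  c1 : ∀ (T : ℕ) (z : W) (y : V), z.2 ≠ 0 → lg (y, (m.Z T (nz z)).1) ≠ 0 →
    ContDiffAt ℝ 1 (fun q : W × V => bt m lg T q.1 q.2) (z, y)
  val : ∀ (T : ℕ) (z ξ : W) (y : V), z.2 ≠ 0 → lg (y, (m.Z T (nz z)).1) ≠ 0 →
    DT m lg T z y ξ = ⟪m.hor (nz z) (fderiv ℝ nz z ξ), (nz z).2⟫ +
      en m T (nz z) (fderiv ℝ nz z ξ) (sg m lg T (nz z) y)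
  unit : ∀ z : W, z.2 ≠ 0 → ‖(nz z).2‖ = 1
  fix : ∀ z ξ : W, ‖z.2‖ = 1 → ⟪ξ.2, z.2⟫ = 0 → nz z = z ∧ fderiv ℝ nz z ξ = ξ
  bd : ∀ z ξ : W, z.2 ≠ 0 → ‖fderiv ℝ nz z ξ‖ ≤ (1 + 2 * ‖z.2‖⁻¹) * ‖ξ‖

def SDER : Prop := OnW fun m lg Γ _ _ _ a b => Bs m lg Γ → Jf m lg a b → Der m lg

def Cau (m : MF) (lg : W → V) : Prop := ∀ R ε : ℝ, 1 ≤ R → 0 < ε → ∃ N : ℕ, ∀ T T' : ℕ, N ≤ T →
  N ≤ T' → ∀ (z : W) (y : V), ‖z‖ ≤ R → R⁻¹ ≤ ‖z.2‖ → ‖y‖ ≤ R →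
    lg (y, (m.Z T (nz z)).1) ≠ 0 ∧ ‖DT m lg T z y - DT m lg T' z y‖ ≤ ε

def SCAU : Prop := OnW fun m lg Γ _ _ _ a b => Bs m lg Γ → Jf m lg a b → Tel2 m lg a b →
  Seg m lg a → Der m lg → Cau m lg

/-- The Busemann function is of class `C¹` with respect to the geodesic. -/
structure Bu (m : MF) (lg : W → V) (β : W → V → ℝ) (D : W → V → W →L[ℝ] ℝ) : Prop where
  lim : ∀ (z : W) (y : V), z.2 ≠ 0 → Tendsto (fun T : ℕ => bt m lg T z y) atTop (𝓝 (β z y))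
  dlim : ∀ (z : W) (y : V), z.2 ≠ 0 → Tendsto (fun T : ℕ => DT m lg T z y) atTop (𝓝 (D z y))
  der : ∀ (z : W) (y : V), z.2 ≠ 0 → HasFDerivAt (fun z => β z y) (D z y) z
  cont : ContinuousOn (fun q : W × V => D q.1 q.2) {q | q.1.2 ≠ 0}

def SBUS : Prop := OnW fun m lg Γ _ _ _ _ _ => Bs m lg Γ → Der m lg → Cau m lg →
  ∃ β D, Bu m lg β D

/-- Asymptotes and the first order term of the derivative. -/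
def Asq (m : MF) (lg : W → V) (a b : ℝ) (β : W → V → ℝ) (D : W → V → W →L[ℝ] ℝ) : Prop :=
  ∀ z : W, ‖z.2‖ = 1 → ∃ C : ℝ, 0 ≤ C ∧ ∀ y : V, ‖lg (z.1, y)‖ ≤ 1 → ∃ u : W, ‖u.2‖ = 1 ∧
    (m.Z (-β z y) u).1 = y ∧
    (∀ t : ℝ, 0 ≤ t → df m lg z u t ≤ C * ‖lg (z.1, y)‖ * exp (-(a * t))) ∧
    ∀ ξ : W, ⟪ξ.2, z.2⟫ = 0 → |D z y ξ - ⟪m.hor z ξ, z.2⟫ - om m z ξ (u - z)| ≤
      C * nn m b z ξ * ‖lg (z.1, y)‖ ^ 2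

def SASQ : Prop := OnW fun m lg Γ _ _ _ a b => ∀ β D, Bs m lg Γ → Tel m lg a b → Seg m lg a →
  Der m lg → Bu m lg β D → Asq m lg a b β D

/-- The Busemann function is flat in normal directions. -/
def Flat (m : MF) (β : W → V → ℝ) : Prop := ∀ (z : W) (e : V), ‖z.2‖ = 1 → ⟪e, z.2⟫ = 0 →
  (fun s : ℝ => β z (m.Z s (z.1, e)).1) =o[𝓝 0] fun s => s

def SFLAT : Prop := OnW fun m lg Γ _ _ _ _ _ => ∀ β D, Bs m lg Γ → Bu m lg β D → Flat m β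

/-- `ξ` is killed by all the derivatives. -/
def Ker (lg : W → V) (D : W → V → W →L[ℝ] ℝ) (z ξ : W) : Prop :=
  ∀ y : V, ‖lg (z.1, y)‖ ≤ 1 → D z y ξ = 0

/-- Stable vectors. -/
def Stab (m : MF) (lg : W → V) (D : W → V → W →L[ℝ] ℝ) : Prop := ∀ z : W, ‖z.2‖ = 1 →
  (∀ ξ : W, ⟪ξ.2, z.2⟫ = 0 → Ker lg D z ξ → ⟪m.hor z ξ, z.2⟫ = 0) ∧
  ∀ e : V, ⟪e, z.2⟫ = 0 → ∃ η : W, m.hor z η = e ∧ (e ≠ 0 → ⟪m.ver z η, e⟫ < 0) ∧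
    ∀ ξ : W, ⟪ξ.2, z.2⟫ = 0 → Ker lg D z ξ → om m z ξ η = 0

def SSTAB : Prop := OnW fun m lg Γ _ _ _ a b => ∀ β D, Bs m lg Γ → Jf m lg a b →
  Asq m lg a b β D → Flat m β → Stab m lg D

def Imm (lg : W → V) (D : W → V → W →L[ℝ] ℝ) : Prop := ∀ z ξ : W, ‖z.2‖ = 1 → ⟪ξ.2, z.2⟫ = 0 →
  Ker lg D z ξ → Ker lg D (fl z) (fl ξ) → ξ = 0

def SIMM : Prop := OnW fun m lg _ _ _ _ a b => ∀ D, Jf m lg a b → Stab m lg D → Imm lg D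

/-! ### The world of metrics -/

section Metric

variable {n : ℕ}

/-- Forward asymptotic. -/
def At (g : Met n) (Φ : ℝ → UT g → UT g) (p q : UT g) : Prop :=
  Tendsto (fun t => dd g (Φ t p).1.1 (Φ t q).1.1) atTop (𝓝 0)

/-- Backward asymptotic. -/
def Ab (g : Met n) (Φ : ℝ → UT g → UT g) (p q : UT g) : Prop :=
  Tendsto (fun t => dd g (Φ t p).1.1 (Φ t q).1.1) atBot (𝓝 0)

/-- The time offset from the past of `u` to the future of `w`. -/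
def Gr (g : Met n) (Φ : ℝ → UT g → UT g) (u w : UT g) : ℝ :=
  ⨅ y, (bus g Φ w y + bus g Φ (ng u) y)

/-- Local product near an asymptotic pair. -/
def Near (g : Met n) (Φ : ℝ → UT g → UT g) : Prop := ∀ u₀ w₀, At g Φ u₀ w₀ → ∀ τ ε : ℝ, 0 < ε →
  ∀ᶠ w in 𝓝 w₀, ∃ (u : UT g) (t₀ : ℝ), Ab g Φ u u₀ ∧ At g Φ (Φ t₀ u) w ∧
    dd g (Φ τ u).1.1 (Φ τ u₀).1.1 ≤ ε

/-- The value of the offset. -/
def Grv (g : Met n) (Φ : ℝ → UT g → UT g) : Prop := ∀ (u u₀ w : UT g) (t₀ : ℝ), Ab g Φ u u₀ →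
  At g Φ (Φ t₀ u) w → Gr g Φ u₀ w = t₀ ∧ (∀ y, t₀ ≤ bus g Φ w y + bus g Φ (ng u₀) y) ∧
    ∀ t, bus g Φ w (Φ t u).1.1 + bus g Φ (ng u₀) (Φ t u).1.1 = t₀

/-- `F` respects the flows and asymptotic pairs. -/
structure Asp (g h : Met n) (Φ : ℝ → UT g → UT g) (Ψ : ℝ → UT h → UT h) (F : UT g ≃ₜ UT h) :
    Prop where
  flow : ∀ t p, F (Φ t p) = Ψ t (F p)
  top : ∀ p q, At g Φ p q ↔ At h Ψ (F p) (F q)
  bot : ∀ p q, Ab g Φ p q ↔ Ab h Ψ (F p) (F q)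

/-- The offset is invariant. -/
def Inv (g h : Met n) (Φ : ℝ → UT g → UT g) (Ψ : ℝ → UT h → UT h) (F : UT g ≃ₜ UT h) : Prop :=
  ∀ u₀ w₀, (At g Φ u₀ w₀ → ∀ᶠ w in 𝓝 w₀, Gr g Φ u₀ w = Gr h Ψ (F u₀) (F w)) ∧
    (Ab g Φ u₀ w₀ → ∀ᶠ w in 𝓝 w₀, Gr g Φ w u₀ = Gr h Ψ (F w) (F u₀))

end Metric

def SNEAR : Prop := OnMan fun _ g _ _ _ Φ => ∀ a, 0 < a → MinP g Φ → ThP g Φ a → Lp1P g Φ →
  Near g Φ

def SINV : Prop := (∀ (n : ℕ) (g : Met n) (Φ : ℝ → UT g → UT g), BP g Φ → Grv g Φ) ∧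
  LV.OnCJ fun _ g h _ _ _ Φ Ψ F => Asp g h Φ Ψ F → Near g Φ → Grv g Φ → Grv h Ψ → Inv g h Φ Ψ F

/-- Frame components. -/
def fz {g : Met dm} (m : MF) (p : UT g) : W := (p.1.1, m.S p.1.1 p.1.2)

/-- What is known on the metric side of one manifold. -/
structure Pk (g : Met dm) (Φ : ℝ → UT g → UT g) (a : ℝ) : Prop where
  min : MinP g Φ
  th : ThP g Φ a
  bp : BP g Φ
  near : Near g Φ
  morse : LV.MorseP g Φ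

/-- The link between the two worlds. -/
structure Ln (g : Met dm) (Φ : ℝ → UT g → UT g) (m : MF) (lg : W → V) (β : W → V → ℝ) : Prop where
  cont : Continuous (fz (g := g) m)
  unit : ∀ p : UT g, ‖(fz m p).2‖ = 1
  onto : ∀ z : W, ‖z.2‖ = 1 → ∃ p : UT g, fz m p = z
  neg : ∀ p : UT g, fz m (ng p) = fl (fz m p)
  flow : ∀ t (p : UT g), m.Z t (fz m p) = fz m (Φ t p)
  dist : ∀ x y, ‖lg (x, y)‖ = dd g x y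
  bus : ∀ (p : UT g) (y : V), bus g Φ p y = β (fz m p) y

/-- The offsets are strictly differentiable. -/
def Env (g : Met dm) (Φ : ℝ → UT g → UT g) (m : MF) (D : W → V → W →L[ℝ] ℝ) : Prop :=
  ∀ (u₀ w₀ : UT g) (τ : ℝ),
    (At g Φ u₀ w₀ → SD (fz m) (fun w => Gr g Φ u₀ w) (D (fz m w₀) (Φ τ u₀).1.1) w₀) ∧
    (Ab g Φ u₀ w₀ →
      SD (fz m) (fun w => Gr g Φ w u₀) ((D (fl (fz m w₀)) (Φ τ u₀).1.1).comp fl) w₀)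

/-- The derivatives of the offsets separate tangent vectors. -/
def Sep (g : Met dm) (Φ : ℝ → UT g → UT g) (m : MF) (D : W → V → W →L[ℝ] ℝ) : Prop :=
  ∀ (w₀ : UT g) (ξ : W), ⟪ξ.2, (fz m w₀).2⟫ = 0 →
    (∀ (u₀ : UT g) (τ : ℝ), At g Φ u₀ w₀ → D (fz m w₀) (Φ τ u₀).1.1 ξ = 0) →
    (∀ (u₀ : UT g) (τ : ℝ), Ab g Φ u₀ w₀ → D (fl (fz m w₀)) (Φ τ u₀).1.1 (fl ξ) = 0) → ξ = 0

def SPK : Prop := SNEAR → On1 fun g _ _ _ _ Φ => ∀ a, 0 < a → TB.CurvLe g a → Pk g Φ a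

def SFRM3 : Prop := On1 fun h C _ _ _ Ψ => ContDiff ℝ ∞ h →
  ∃ m : MF, m.OK ∧ Lk h C Ψ m ∧ ContDiff ℝ 2 m.om

def SBR : Prop := STAY → On1 fun g C Γ _ _ Φ => ∀ (m : MF) (lg : W → V) O (a b : ℝ),
  (∀ γ : Γ, ContDiff ℝ ∞ fun x : V => γ • x) → m.OK → m.Jac → Lk g C Φ m → ContDiff ℝ 2 m.om →
  m.Had lg → (∀ y z, ‖lg (y, z)‖ = dd g y z) → Act m Γ O → 0 < a → b ^ 2 < 4 * a ^ 2 →
  Pin g C (a ^ 2) (b ^ 2) → ThP g Φ a → NW m lg Γ O a (max |b| a)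

def SLN : Prop := On1 fun g C _ _ _ Φ => ∀ (m : MF) (lg : W → V) β D, m.OK → Lk g C Φ m →
  (∀ y z, ‖lg (y, z)‖ = dd g y z) → BP g Φ → Bu m lg β D → Ln g Φ m lg β

def SENV : Prop := On1 fun g _ _ _ _ Φ => ∀ (m : MF) (lg : W → V) β D, Near g Φ → Grv g Φ →
  Ln g Φ m lg β → Bu m lg β D → Env g Φ m D

def SSEP : Prop := On1 fun g _ _ _ _ Φ => ∀ (m : MF) (lg : W → V) (a b : ℝ) β D, 0 < a →
  Ln g Φ m lg β → Asq m lg a b β D → Imm lg D → Sep g Φ m D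

def SASP : Prop := On2 fun g h _ _ _ _ _ _ _ _ Φ Ψ _ F => ∀ a a', Pk g Φ a → Pk h Ψ a' →
  Asp g h Φ Ψ F

def SFIN : Prop := SSTR → ∀ (g h : Met dm) (C C' : TB.Chr dm) (Φ : ℝ → UT g → UT g)
  (Ψ : ℝ → UT h → UT h) (m m' : MF) (F : UT g → UT h), m.OK → m'.OK → Lk g C Φ m → Lk h C' Ψ m' →
  (∀ p₀, ∃ L, SD (fz m) (fun p => fz m' (F p)) L p₀) → DNIN.C1F F

/-- The left inverse step. -/
def SCORE : Prop := SLEFT → ∀ (g h : Met dm) (Φ : ℝ → UT g → UT g) (Ψ : ℝ → UT h → UT h)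
  (m m' : MF) (D D' : W → V → W →L[ℝ] ℝ) (F : UT g ≃ₜ UT h), Continuous (fz (g := h) m') →
  (∀ p : UT h, ‖(fz m' p).2‖ = 1) → Asp g h Φ Ψ F → Inv g h Φ Ψ F → Env g Φ m D → Env h Ψ m' D' →
  Sep h Ψ m' D' → ∀ p₀, ∃ L, SD (fz m) (fun p => fz m' (F p)) L p₀

end

end Pool.Agent.MP_3ee8cb_gt.DNC0
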