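import Pool.Agent.MP_3ee8cb_gt.DNC0.Spec

/-! Under quarter pinching a conjugacy is of class `C¹`: assembly of the rows. -/

namespace Pool.Agent.MP_3ee8cb_gt.DNC0

open DN (Dim dm)

variable [Dim]

open Set Filter Topology Asymptotics Real DN
open CR (Met UT Riem RP dd ng tm MinP bus)
open LV (QP CJ BP TP ThP Lp1P OnMan)
open scoped RealInnerProductSpace ContDiff

/-- The rows in the world of frames. -/
structure RowsW : Prop where
  q2 : SQ2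
  bs : SBS
  jf : SJF
  step : SSTEP
  mov : SMOV
  tel : STEL
  tel2 : STEL2
  seg : SSEG
  der : SDER
  cau : SCAU
  bus : SBUS
  asq : SASQ
  flat : SFLAT
  stab : SSTAB
  imm : SIMM

theorem world (r : RowsW) {m : MF} {lg : W → V} {Γ : Type} [Group Γ] [MulAction Γ V]
    {O : Γ → V → V ≃ₗᵢ[ℝ] V} {a b : ℝ} (w : NW m lg Γ O a b) :
    ∃ β D, Bu m lg β D ∧ Asq m lg a b β D ∧ Imm lg D := by
  have bs := r.bs m lg Γ O a b w
  have jf := r.jf m lg Γ O a b w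
  have mov := r.mov m lg Γ O a b w bs
  have tel := r.tel m lg Γ O a b w bs jf (r.step r.q2 m lg Γ O a b w jf) mov
  have seg := r.seg m lg Γ O a b w bs jf
  have der := r.der m lg Γ O a b w bs jf
  obtain ⟨β, D, bu⟩ := r.bus m lg Γ O a b w bs der
    (r.cau m lg Γ O a b w bs jf (r.tel2 m lg Γ O a b w bs jf mov tel) seg der)
  have asq := r.asq m lg Γ O a b w β D bs tel seg der bu
  exact ⟨β, D, bu, asq, r.imm m lg Γ O a b w D jf
    (r.stab m lg Γ O a b w β D bs jf asq (r.flat m lg Γ O a b w β D bs bu))⟩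

/-- The rows in the world of metrics. -/
structure RowsM : Prop where
  jac : SJAC
  had : SHAD
  act : SACT
  tay : STAY
  left : SLEFT
  str : SSTR
  near : SNEAR
  inv : SINV
  pk : SPK
  frm3 : SFRM3
  br : SBR
  ln : SLN
  env : SENV
  sep : SSEP
  asp : SASP
  fin : SFIN
  core : SCORE

theorem d2_of {g : Met dm} {Γ : Type} [Group Γ] [MulAction Γ V] {Φ : ℝ → UT g → UT g}
    (s : DNIN.SM g Γ Φ) : D2 Γ := fun γ =>
  (s.act γ).of_le (WithTop.coe_le_coe.2 (le_top : ((2 : ℕ) : ℕ∞) ≤ ⊤))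

theorem one (r : RowsW) (s : RowsM) {g : Met dm} {Γ : Type} [Group Γ] [MulAction Γ V]
    {Φ : ℝ → UT g → UT g} {a b : ℝ} (sm : DNIN.SM g Γ Φ) (ha : 0 < a) (hb : b ^ 2 < 4 * a ^ 2)
    (hp : DNIN.Pinch g a b) : ∃ (C : TB.Chr dm) (m : MF) (D : W → V → W →L[ℝ] ℝ), TB.IsChr g C ∧
      m.OK ∧ Lk g C Φ m ∧ Pk g Φ a ∧ Continuous (fz (g := g) m) ∧
      (∀ p : UT g, ‖(fz m p).2‖ = 1) ∧ Env g Φ m D ∧ Sep g Φ m D := by
  obtain ⟨C, hC, hc⟩ := hp
  have cl : TB.CurvLe g a := ⟨C, hC, fun x u v => (hc x u v).1⟩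
  have pk := s.pk s.near g C Γ Φ sm.qp hC a ha cl
  obtain ⟨m, ok, lk, c2⟩ := s.frm3 g C Γ Φ sm.qp hC sm.sm
  have jac := s.jac m ok
  obtain ⟨lg, had, hd⟩ := s.had g C Γ Φ sm.qp hC m a ok jac lk ha cl
  obtain ⟨O, act⟩ := s.act g C Γ Φ sm.qp hC m ok lk (d2_of sm)
  have w := s.br s.tay g C Γ Φ sm.qp hC m lg O a b sm.act ok jac lk c2 had hd act ha hb
    (fun x u v => ⟨(hc x u v).2, (hc x u v).1⟩) pk.th
  obtain ⟨β, D, bu, asq, imm⟩ := world r w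
  have ln := s.ln g C Γ Φ sm.qp hC m lg β D ok lk hd pk.bp bu
  exact ⟨C, m, D, hC, ok, lk, pk, ln.cont, ln.unit,
    s.env g C Γ Φ sm.qp hC m lg β D pk.near (s.inv.1 dm g Φ pk.bp) ln bu,
    s.sep g C Γ Φ sm.qp hC m lg a _ β D ha ln asq imm⟩

theorem partB_of (r : RowsW) (s : RowsM) (a : ℝ) (ha : 0 < a) : DNIN.PartB a := by
  intro g h Γ Λ _ _ _ _ Φ Ψ ρ F sg sh cj b a' b' ha' hb hb' pg ph
  obtain ⟨C, m, D, hC, ok, lk, pk, -, -, env, -⟩ := one r s sg ha' hb' pg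
  obtain ⟨C', m', D', hC', ok', lk', pk', ct, un, env', sep'⟩ := one r s sh ha hb ph
  have asp := s.asp g h C C' Γ Λ Φ Ψ ρ F sg.qp sh.qp hC hC' (d2_of sg) (d2_of sh) cj a' a pk pk'
  have inv := s.inv.2 dm g h Γ Λ Φ Ψ ρ F sg.qp sh.qp cj asp pk.near (s.inv.1 dm g Φ pk.bp)
    (s.inv.1 dm h Ψ pk'.bp)
  exact s.fin s.str g h C C' Φ Ψ m m' F ok ok' lk lk'
    (s.core s.left g h Φ Ψ m m' D D' F ct un asp inv env env' sep')

end Pool.Agent.MP_3ee8cb_gt.DNC0
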